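import Mathlib
import Pool.Agent.L7h19.FT.Stm3
import Pool.Agent.L7h19.RP.SCnt
import Pool.Agent.L7h19.IS.Cat2

/-!
# Project FD (helper19; MP_157626_nt): full 2-torsion, all moments, with common factors (twists)

`E : y² = x (x - D A) (x - D B)`. The primes of the classes `0, 1, 2` divide (once) only `A`, `B`,
`A - B`, those of the class `3` divide only `D`. Generalizes project FT
(`Pool/Agent/L7h19/FT/Stm.lean`, which is the case without the class `3`); every part below is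
adapted from the part of FT named in its docstring.

The square classes of `(x, x - D A)` at a prime `p` are a vector `v` of the plane `V2` over `F_2`
(the parities of the valuations) with `v ∈ {0, dc c}` if the class `c` of `p` is not `3`. The local
condition at `p` is: for every `e` (in `{0, dc c}` if `c ≠ 3`) the product of the symbols `(q / p)` over
the `q ≠ p` with `om2 v_q e ≠ 0`, times the sign `(-1) ^ dg c n ε v_p e`, is `1`. The sign depends on
the pattern `n : Fin 3 → ZMod 2` of `p` (class `≠ 3`: `n 0 = 1` if `p` is nonsplit; class `3`: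
`n i = 1` if `((F i / p) / p) = -1`, where `F = (D A, D B, D (A - B))`) and on `ε = (p mod 4 = 3)`.
-/

set_option autoImplicit false

namespace Pool.Agent.L7h19.FD

open Finset Polynomial Pool.Agent.W262.RK Pool.Agent.W307.RT Pool.Agent.L7h19.RP
open Pool.Agent.L7h19.RP.AT (gm)
open Pool.Agent.L7h19.RH (Q0)
open Pool.Agent.L7h19.IK (Idp)
open Pool.Agent.H474R2.PG (rho)

/-! ## Pointwise -/

/-- the plane over `F_2`: the parities of the valuations of `x` and `x - D A` -/
abbrev V2 : Type := ZMod 2 × ZMod 2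

/-- the direction of the class -/
def dc (c : Fin 4) : V2 := if c = 0 then (1, 1) else if c = 1 then (1, 0) else (0, 1)

/-- the alternating form -/
def om2 (v w : V2) : ZMod 2 := v.1 * w.2 + v.2 * w.1

/-- the line of the class (the plane for the class `3`) -/
def Ln (c : Fin 4) (v : V2) : Prop := c = 3 ∨ v = 0 ∨ v = dc c

instance (c : Fin 4) : DecidablePred (Ln c) := fun v => by
  unfold Ln
  infer_instance

/-- the form at a prime of the class `3` (see `LL` in `Pool/Agent/W262/RK/Defs2.lean`: the test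
`e = (0, 1)` is about `h`, the symbol of `x`, and `e = (1, 0)` about `g`, the symbol of `x - D A`) -/
def ph (n : Fin 3 → ZMod 2) (ε : ZMod 2) (v e : V2) : ZMod 2 :=
  e.2 * (v.1 * n 0 + v.2 * (n 0 + n 1)) + e.1 * (v.1 * (n 0 + n 2) + v.2 * (n 0 + ε))

/-- the form at a prime of the class `c` -/
def dg (c : Fin 4) (n : Fin 3 → ZMod 2) (ε : ZMod 2) (v e : V2) : ZMod 2 :=
  if c = 3 then ph n ε v e else if v ≠ 0 ∧ e ≠ 0 then n 0 else 0

/-- `p ≡ 3` modulo `4`? -/
def m4 (p : ℕ) : ZMod 2 := if p % 4 = 3 then 1 else 0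

/-- the sign -/
def sn (a : ZMod 2) : ℤ := if a = 0 then 1 else -1

/-- the pattern of the prime `p` -/
def nb (E : Fin 3 → Finset ℕ) (p : ℕ) : Fin 3 → ZMod 2 := fun i => if p ∈ E i then 1 else 0

/-- the product of the `m c` -/
def Mt (m : Fin 4 → ℕ) : ℕ := ∏ c, m c

/-- the class of the prime `p` -/
def cl (m : Fin 4 → ℕ) (p : ℕ) : Fin 4 :=
  if p ∣ m 0 then 0 else if p ∣ m 1 then 1 else if p ∣ m 2 then 2 else 3

/-- the vector at `p` of a pair of divisors -/
def dV (x : ℕ × ℕ) (p : ℕ) : V2 := (if p ∣ x.1 then 1 else 0, if p ∣ x.2 then 1 else 0)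

/-- the pairs of divisors with vectors in the lines -/
def Kd (m : Fin 4 → ℕ) : Finset (ℕ × ℕ) :=
  ((Mt m).divisors ×ˢ (Mt m).divisors).filter (fun x =>
    ∀ p ∈ (Mt m).primeFactors, Ln (cl m p) (dV x p))

/-- the symbol of `q`, with the vector `v`, in the condition `e` at the prime `p` -/
def sy (m : Fin 4 → ℕ) (E : Fin 3 → Finset ℕ) (p q : ℕ) (v e : V2) : ℤ :=
  if q = p then sn (dg (cl m p) (nb E p) (m4 p) v e) else
    if om2 v e = 0 then 1 else jacobiSym (q : ℤ) p

/-- the number of the elements of `K` -/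
def N0 (m : Fin 4 → ℕ) (E : Fin 3 → Finset ℕ) : ℕ := ((Kd m).filter (fun x : ℕ × ℕ =>
  ∀ p ∈ (Mt m).primeFactors, ∀ e, Ln (cl m p) e →
    (∏ q ∈ (Mt m).primeFactors, sy m E p q (dV x q) e) = 1)).card

/-- the primes of the classes `c` and `3` at which the form vanishes on the direction of `c` -/
def Ms (m : Fin 4 → ℕ) (E : Fin 3 → Finset ℕ) (c : Fin 3) : ℕ :=
  ∏ p ∈ (m c.castSucc * m 3).primeFactors.filter (fun p =>
    dg (cl m p) (nb E p) (m4 p) (dc c.castSucc) (dc c.castSucc) = 0), p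

/-- the primes of the classes different from `c` (the class `3` included) -/
def Mo (m : Fin 4 → ℕ) (c : Fin 3) : ℕ := ∏ e ∈ univ.filter (fun e : Fin 4 => e ≠ c.castSucc), m e

/-- the difference of the numbers of these primes -/
def dl (m : Fin 4 → ℕ) (E : Fin 3 → Finset ℕ) (c : Fin 3) : ℤ :=
  ((Ms m E c).primeFactors.card : ℤ) - ((Mo m c).primeFactors.card : ℤ)

/-- the normalizing exponent -/
def ex (G : Finset (Fin 3)) (m : Fin 4 → ℕ) (E : Fin 3 → Finset ℕ) : ℕ :=
  (univ.filter (fun c => c ∉ G)).sup (fun c => (dl m E c).toNat)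

/-- the majorant -/
noncomputable def gF (G : Finset (Fin 3)) (m : Fin 4 → ℕ) (E : Fin 3 → Finset ℕ) : ℝ :=
  (N0 m E : ℝ) / 2 ^ (ex G m E)

/-- the `k`-tuples whose nonzero combinations do not have all values in one of the lines -/
def Cd (k : ℕ) (m : Fin 4 → ℕ) (d : Fin k → ℕ × ℕ) : Prop :=
  ∀ y : Fin k → ZMod 2, y ≠ 0 → ∀ c : Fin 3,
    ∃ p ∈ (Mt m).primeFactors, ¬ Ln c.castSucc (∑ i, y i • dV (d i) p)

instance (k : ℕ) (m : Fin 4 → ℕ) : DecidablePred (Cd k m) := fun d => by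
  unfold Cd
  infer_instance

/-- the number of these tuples in `K ^ k` -/
noncomputable def TK (k : ℕ) (m : Fin 4 → ℕ) (E : Fin 3 → Finset ℕ) : ℝ :=
  (∑ d ∈ (Fintype.piFinset (fun _ : Fin k => Kd m)).filter (Cd k m),
    ∑ e ∈ Fintype.piFinset (fun _ : Fin k => Kd m),
      ∏ i, ∏ p ∈ (Mt m).primeFactors, ∏ q ∈ (Mt m).primeFactors,
        (sy m E p q (dV (d i) q) (dV (e i) p) : ℝ)) /
    (2 ^ (k * (m 0 * m 1 * m 2).primeFactors.card) * 4 ^ (k * (m 3).primeFactors.card))

/-- a vector outside the line of `c` -/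
def xo (c : Fin 3) : V2 := if c = 1 then (0, 1) else (1, 0)

/-- the symbol of `q ∣ Ms` in the condition at `p ∣ Mo` -/
def sc (m : Fin 4 → ℕ) (E : Fin 3 → Finset ℕ) (c : Fin 3) (p q : ℕ) : ℤ :=
  if q = p then sn (dg (cl m p) (nb E p) (m4 p) (dc c.castSucc) (xo c)) else jacobiSym (q : ℤ) p

/-- sums over tuples `d` of divisors of `Ms m E c`, `e` of `Mo m c`; the `d` (if `τ`) or the `e` (if
not `τ`) are independent modulo squares -/
noncomputable def FK (τ : Bool) (a b r : ℕ) (m : Fin 4 → ℕ) (E : Fin 3 → Finset ℕ) (c : Fin 3) : ℝ :=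
  (∑ d ∈ Fintype.piFinset (fun _ : Fin r => (Ms m E c).divisors),
    ∑ e ∈ Fintype.piFinset (fun _ : Fin r => (Mo m c).divisors),
      if (if τ = true then Idp r (Ms m E c) d else Idp r (Mo m c) e) then
        ∏ i, ∏ p ∈ (e i).primeFactors, ∏ q ∈ (d i).primeFactors, (sc m E c p q : ℝ)
      else 0) /
    (2 ^ (a * (Ms m E c).primeFactors.card) * 2 ^ (b * (Mo m c).primeFactors.card))

/-- the numbers `m c` are odd, squarefree and pairwise coprime -/
def Ok (m : Fin 4 → ℕ) : Prop := Odd (Mt m) ∧ Squarefree (Mt m)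

/-- **S_LAD**: the pointwise bound (adapt `Pool.Agent.L7h65.FT.s_LAF`). `K` is a vector space over
`F_2` (the condition is bilinear in `(v, e)`: `om2`, `ph` are bilinear, and `dg c n ε` is bilinear on
`{0, dc c}` for `c ≠ 3`); `K_c`: the elements of `K` with all values in `{0, dc c}`; they live at the
primes of the classes `c` and `3`; the test `e = dc c` at these primes gives `dg … (dc c) (dc c) = 0`
at the `p` with nonzero value (`om2 (dc c) (dc c) = 0`), that is `K_c ⊆` divisors of `Ms`, and the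
test `e ∉ {0, dc c}` at the primes of the other classes and of the class `3` gives one condition for
each `p ∣ Mo`, with the symbols `sc`. (For `c' ≠ c`, `c' ≠ 3` the only `e ≠ 0` is `dc c'`, and there
`q ≠ p`; for the class `3` the two `e ∉ {0, dc c}` give the same condition.) So `K_c` is the kernel of
a matrix with the rows `p ∣ Mo` and the columns `q ∣ Ms`, as in FT. -/
def S_LAD : Prop := ∀ (k : ℕ) (m : Fin 4 → ℕ) (E : Fin 3 → Finset ℕ) (G : Finset (Fin 3)), Ok m →
  0 ≤ TK k m E ∧ (∀ τ a b c, 0 ≤ FK τ a b k m E c) ∧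
  gF G m E ^ k ≤ 4 ^ ((k + 2) ^ 2) * (1 + TK k m E + ∑ c ∈ G, FK true 0 k k m E c +
    ∑ c ∈ univ.filter (fun c => c ∉ G), (FK false 0 k k m E c + FK true k 0 k m E c))

variable {J : Type} [Fintype J] [DecidableEq J]

/-- the product of the parts of class `c` -/
def mc (cls : J → Fin 4) (s : J → ℕ) (c : Fin 4) : ℕ := ∏ j ∈ univ.filter (fun j => cls j = c), s j

/-- **S_GFD**: growth of the majorant (adapt `Pool.Agent.L7h78.FT.s_GRF`): each new prime multiplies
`N0` by at most `4` and changes each `dl` by at most `1`. -/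
def S_GFD : Prop := ∀ (J : Type) [Fintype J] [DecidableEq J] (cls : J → Fin 4)
  (G : Finset (Fin 3)) (z y : ℕ) (s e : J → ℕ) (E : Fin 3 → Finset ℕ), 2 ≤ z →
  (fun j => s j * e j) ∈ Tup J z y →
  gF G (mc cls s) E = gF G (mc cls s) (fun i => E i ∩ Q0 s) ∧
  gF G (mc cls (fun j => s j * e j)) E ≤ 16 ^ (∑ j, (e j).primeFactors.card) * gF G (mc cls s) E

/-! ## The expansions, for arbitrary weights `W j π p` of the patterns `π` -/

/-- the patterns -/
abbrev Pat : Type := Fin 3 → Bool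

/-- the pattern in `ZMod 2` -/
def zb (π : Pat) : Fin 3 → ZMod 2 := fun i => if π i = true then 1 else 0

/-- the weight of `E` -/
noncomputable def WE (W : J → Pat → ℕ → ℝ) (s : J → ℕ) (E : Fin 3 → Finset ℕ) : ℝ :=
  ∏ j, ∏ p ∈ (s j).primeFactors, W j (fun i => decide (p ∈ E i)) p

/-- the sum over all patterns -/
noncomputable def avE (W : J → Pat → ℕ → ℝ) (Φ : (Fin 3 → Finset ℕ) → ℝ) (s : J → ℕ) : ℝ :=
  ∑ E ∈ Fintype.piFinset (fun _ : Fin 3 => (Q0 s).powerset), Φ E * WE W s E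

/-- in the class `3` a pattern and its complement have the same weight -/
def WSym (W : J → Pat → ℕ → ℝ) (cls : J → Fin 4) : Prop :=
  ∀ j, cls j = 3 → ∀ (π : Pat) (p : ℕ), W j (fun i => !(π i)) p = W j π p

/-- the allowed pairs `(v, e)` of the labels -/
def Al (c : Fin 4) (k : ℕ) (v e : Fin k → V2) : Prop :=
  (∀ a, Ln c (v a)) ∧ (∀ a, Ln c (e a)) ∧ ∑ a, om2 (v a) (e a) = 0

instance (c : Fin 4) (k : ℕ) (v e : Fin k → V2) : Decidable (Al c k v e) := by
  unfold Al
  infer_instance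

/-- the labels `(j, (v, e))`: `v i`, `e i` are the vectors of `d i`, `e i` at the prime -/
def LabT (cls : J → Fin 4) (k : ℕ) : Type :=
  {i : J × ((Fin k → V2) × (Fin k → V2)) // Al (cls i.1) k i.2.1 i.2.2}

instance (cls : J → Fin 4) (k : ℕ) : Fintype (LabT cls k) := by unfold LabT; infer_instance

instance (cls : J → Fin 4) (k : ℕ) : DecidableEq (LabT cls k) :=
  fun a b => decidable_of_iff (a.1 = b.1) (Subtype.ext_iff.symm)

/-- the limit weights -/
noncomputable def wT (cls : J → Fin 4) (k : ℕ) (i : LabT cls k) : ℝ :=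
  if cls i.1.1 = 3 then 1 / 4 ^ k else 1 / 2 ^ k

/-- the weights -/
noncomputable def bT (W : J → Pat → ℕ → ℝ) (cls : J → Fin 4) (k : ℕ) (i : LabT cls k) (p : ℕ) : ℝ :=
  wT cls k i * ∑ π : Pat,
    (∏ a, (sn (dg (cls i.1.1) (zb π) (m4 p) (i.1.2.1 a) (i.1.2.2 a)) : ℝ)) * W i.1.1 π p

/-- the symbols -/
def LT (cls : J → Fin 4) (k : ℕ) (i l : LabT cls k) : Bool :=
  decide (∑ a, om2 (i.1.2.1 a) (l.1.2.2 a) ≠ 0)

/-- the condition on the support -/
def QT (cls : J → Fin 4) (k : ℕ) (U : Finset (LabT cls k)) : Prop := ∀ y : Fin k → ZMod 2, y ≠ 0 →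
  ∀ c : Fin 3, ∃ i ∈ U, ¬ Ln c.castSucc (∑ a, y a • i.1.2.1 a)

instance (cls : J → Fin 4) (k : ℕ) : DecidablePred (QT cls k) := fun U => by
  unfold QT
  infer_instance

/-- **S_EXD**: the expansion of `TK` (adapt `Pool.Agent.L7h56.FT.s_EXT`). A prime `p ∣ s j` gets the
label `(j, (v, e))` with `v i = dV (d i) p`, `e i = dV (e i) p`. The labels of the class `3` with
`∑ a, om2 (v a) (e a) ≠ 0` have total weight `0` by `WSym`: if all bits of the pattern change, then
`ph n ε v e` changes by `e.2 * v.1 + e.1 * v.2 = om2 v e`. -/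
def S_EXD : Prop := ∀ (J : Type) [Fintype J] [DecidableEq J] (cls : J → Fin 4)
  (W : J → Pat → ℕ → ℝ) (k z y : ℕ), 2 ≤ z → WSym W cls →
  ∑ s ∈ Tup J z y, avE W (fun E => TK k (mc cls s) E) s =
    ∑ d ∈ (Tup (LabT cls k) z y).filter (fun d => QT cls k (univ.filter (fun i => d i ≠ 1))),
      (∏ i : LabT cls k, gm (bT W cls k i) (d i)) * Sym (LT cls k) (fun _ => 1) d

/-- **S_CTD**: the combinatorial lemma for `LT` (adapt `Pool.Agent.L7h72.FT.combT`). Let `M` be the
space of the `(v, e)` with the alternating form `B((v, e), (v', e')) = ∑ om2 (v a) (e' a) +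
∑ om2 (v' a) (e a)` (dimension `4 k`), `q (v, e) = ∑ om2 (v a) (e a)` (a quadratic form with polar form
`B`; it vanishes on the labels), `M_c = (line of c) ^ k × (line of c) ^ k` for `c ≠ 3`, and `D_c` the
span of the vectors of class `c` of `W = UL U S`. `i, l` are unlinked iff `B (i, l) = 0` (for the same
class `c ≠ 3` always `B = 0`). All elements of `D_c` are orthogonal to all vectors of `U ∪ S` of another
class, and for `c = 3` to all of them.
(1) Class `3`: `q = 0` and `B = 0` on `D_3`, so `|D_3| ≤ 2 ^ (2 k)`, and each fibre has at most `4 ^ k`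
elements.
(2) Class `c ≠ 3`: if `(0, u ⊗ dc c) ∈ D_c` with `u ≠ 0`, then by `QT` there is `l ∈ U ∪ S` with
`∑ u a • v_l a ∉ {0, dc c}`, so `B ≠ 0`, and `l` is not of class `c`: contradiction. So the projection
to the first component is injective on `D_c`, `|D_c| ≤ 2 ^ k`.
(3) Strictness: suppose all fibres are full and `s ∈ S`. If `s` is of class `3` then `s ⊥ D_3`, `D_3` is
maximal totally singular, so `s ∈ D_3` is in the fibre: contradiction to `Disjoint U S`. If `s` is of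
class `c ≠ 3`: by `QT` (`k ≥ 1`; `k = 0` is trivial) some class `c' ≠ c` occurs. If `c' ≠ 3`, the
projection of `D_c'` to the first component is onto `(line of c') ^ k`, so for `t ∈ D_c` with the same
first component as `s` (the projection of `D_c` is onto too) `s - t = (0, u ⊗ dc c)` is orthogonal to
all of `D_c'`, hence `u = 0`. If only the classes `c` and `3` occur: `D_3 ∩ M_c` contains no
`(0, u ⊗ dc c)`, `u ≠ 0` (by `QT` as in (2), since `D_3` is orthogonal to all of `U ∪ S`), so it has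
dimension `≤ k` and the image of `D_3` in `M / M_c` has dimension `≥ k`; `M_c` is its own orthogonal,
so the orthogonal of `D_3` in `M_c` has dimension `≤ k` and contains `D_c` (of dimension `k`) and `s`:
`s ∈ D_c`, contradiction. -/
def S_CTD : Prop := ∀ (J : Type) [Fintype J] [DecidableEq J] (cls : J → Fin 4) (k : ℕ)
  (U S : Finset (LabT cls k)), Disjoint U S →
  (∀ i ∈ U, ∀ l ∈ U, LT cls k i l = LT cls k l i) → QT cls k (U ∪ S) →
  (∑ i ∈ Pool.Agent.L7h19.IS.UL (LT cls k) U S, wT cls k i) ≤ Fintype.card J ∧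
    (S.Nonempty →
      (∑ i ∈ Pool.Agent.L7h19.IS.UL (LT cls k) U S, wT cls k i) < Fintype.card J)

/-- the allowed pairs `(u, x)` of the labels of `FK`: `u` for the `d i`, `x` for the `e i` -/
def AF (c : Fin 3) (c' : Fin 4) (r : ℕ) (u x : Fin r → ZMod 2) : Prop :=
  (c' = c.castSucc → x = 0) ∧ (c' ≠ c.castSucc → c' ≠ 3 → u = 0) ∧ u ⬝ᵥ x = 0

instance (c : Fin 3) (c' : Fin 4) (r : ℕ) (u x : Fin r → ZMod 2) : Decidable (AF c c' r u x) := by
  unfold AF
  infer_instance

/-- the labels `(j, (u, x), h)`; `h` splits the weights into two halves -/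
def LabF (cls : J → Fin 4) (c : Fin 3) (r : ℕ) : Type :=
  {i : J × ((Fin r → ZMod 2) × (Fin r → ZMod 2)) × Bool // AF c (cls i.1) r i.2.1.1 i.2.1.2}

instance (cls : J → Fin 4) (c : Fin 3) (r : ℕ) : Fintype (LabF cls c r) := by
  unfold LabF
  infer_instance

instance (cls : J → Fin 4) (c : Fin 3) (r : ℕ) : DecidableEq (LabF cls c r) :=
  fun a b => decidable_of_iff (a.1 = b.1) (Subtype.ext_iff.symm)

/-- the weights, in terms of the sum `S0` of the weights of the patterns with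
`dg … (dc c) (dc c) = 0` and the sum `S1` of the other ones -/
noncomputable def wv (cls : J → Fin 4) (c : Fin 3) (a b r : ℕ) (i : LabF cls c r) (S0 S1 : ℝ) : ℝ :=
  (if cls i.1.1 = c.castSucc ∨ cls i.1.1 = 3 then
    ((if i.1.2.1.1 = 0 then S1 else 0) + S0 / 2 ^ a) else S0 + S1) *
    (if cls i.1.1 = c.castSucc then 1 else 1 / 2 ^ b) / 2

/-- the sum of the weights of the patterns with `dg … (dc c) (dc c) = σ` -/
noncomputable def sw (W : J → Pat → ℕ → ℝ) (cls : J → Fin 4) (c : Fin 3) (σ : ZMod 2) (j : J)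
    (p : ℕ) : ℝ :=
  ∑ π ∈ univ.filter (fun π : Pat =>
    dg (cls j) (zb π) (m4 p) (dc c.castSucc) (dc c.castSucc) = σ), W j π p

/-- the weights -/
noncomputable def bF (W : J → Pat → ℕ → ℝ) (cls : J → Fin 4) (c : Fin 3) (a b r : ℕ)
    (i : LabF cls c r) (p : ℕ) : ℝ :=
  wv cls c a b r i (sw W cls c 0 i.1.1 p) (sw W cls c 1 i.1.1 p)

/-- the symbols -/
def LF (cls : J → Fin 4) (c : Fin 3) (r : ℕ) (i l : LabF cls c r) : Bool :=
  decide (i.1.2.1.1 ⬝ᵥ l.1.2.1.2 ≠ 0)

/-- the condition on the support -/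
def QF (cls : J → Fin 4) (c : Fin 3) (τ : Bool) (r : ℕ) (U : Finset (LabF cls c r)) : Prop :=
  ∀ y : Fin r → ZMod 2, y ≠ 0 → ∃ i ∈ U, y ⬝ᵥ (if τ = true then i.1.2.1.1 else i.1.2.1.2) ≠ 0

instance (cls : J → Fin 4) (c : Fin 3) (τ : Bool) (r : ℕ) : DecidablePred (QF cls c τ r) :=
  fun U => by
    unfold QF
    infer_instance

/-- **S_EFD**: the expansion of `FK` (adapt `Pool.Agent.L7h60.FT.s_EXF`). The label of a prime:
`u i = 1` if it divides `d i`, `x i = 1` if it divides `e i`. The labels of the class `3` with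
`u ⬝ᵥ x ≠ 0` have total weight `0` by `WSym` (if all bits change, `dg … (dc c) (dc c)` does not
change, and `dg … (dc c) (xo c)` changes, as `om2 (dc c) (xo c) = 1`). -/
def S_EFD : Prop := ∀ (J : Type) [Fintype J] [DecidableEq J] (cls : J → Fin 4) (c : Fin 3)
  (W : J → Pat → ℕ → ℝ) (τ : Bool) (a b r z y : ℕ), 2 ≤ z → WSym W cls →
  ∑ s ∈ Tup J z y, avE W (fun E => FK τ a b r (mc cls s) E c) s =
    ∑ d ∈ (Tup (LabF cls c r) z y).filter
      (fun d => QF cls c τ r (univ.filter (fun i => d i ≠ 1))),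
      (∏ i : LabF cls c r, gm (bF W cls c a b r i) (d i)) * Sym (LF cls c r) (fun _ => 1) d

/-- **S_CFD**: the combinatorial lemma for `LF`. All the `(u, x)` of the labels in `W = UL U S` lie in
one subspace `D` of `F_2 ^ r × F_2 ^ r`, totally singular for `u ⬝ᵥ x`, so `|D| ≤ 2 ^ r`; `D` is
orthogonal to all labels of `U ∪ S`. Let `r1`, `s1` be the dimensions of `{u : (u, 0) ∈ D}`,
`{x : (0, x) ∈ D}`. The sums of the weights over the fibres are at most: class `c`:
`(1 - μ) + 2 ^ r1 μ / 2 ^ a`; classes `≠ c, 3`: `2 ^ s1 / 2 ^ b`; class `3`: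
`(2 ^ s1 (1 - μ) + |D| μ / 2 ^ a) / 2 ^ b`.
(1) `τ = false, a = 0, b = r`: by `QF` `r1 = 0`, all fibres have sum `≤ 1`.
(2) `τ = true, a = r, b = 0`: by `QF` `s1 = 0`, all fibres have sum `≤ 1`.
(3) `τ = true, a = 0, b = r ≥ 1` and the hypothesis `hG`: `s1 = 0`, and the total is at most
`∑_c (1 - μ + 2 ^ r μ) + n 2 ^ (-r) + ∑_3 (μ + (1 - μ) 2 ^ (-r)) ≤ |J|`.
Strictness: if all these are equalities and `s ∈ S`: the fibres of `W` are all of the possible labels
(all weights are positive, both values of `h`); if `D` is maximal then `s ∈ D`, so `s ∈ W`,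
contradiction; if `D` is not maximal then there is no class `3`, and if `s` is of class `c` with
`u ≠ 0` (of another class with `x ≠ 0`), then the `x` (the `u`) of `D` are orthogonal to it, and the
fibres of the other classes (of the class `c`; they exist by `QF`) are not full; or `s` is in the
fibre. Compare `combF` in `Pool/Agent/L7h19/FT/CombF.lean`. -/
def S_CFD : Prop := ∀ (J : Type) [Fintype J] [DecidableEq J] (cls : J → Fin 4) (c : Fin 3)
  (μ : J → ℝ) (τ : Bool) (a b r : ℕ), (∀ j, 0 < μ j ∧ μ j ≤ 1) →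
  ((τ = false ∧ a = 0 ∧ b = r) ∨ (τ = true ∧ a = r ∧ b = 0) ∨
    (τ = true ∧ a = 0 ∧ b = r ∧ 1 ≤ r ∧
      2 ^ r * ∑ j ∈ univ.filter (fun j => cls j = c.castSucc), μ j ≤
        ((univ.filter (fun j => cls j ≠ c.castSucc ∧ cls j ≠ 3)).card : ℝ) +
          ∑ j ∈ univ.filter (fun j => cls j = 3), (1 - μ j))) →
  ∀ U S : Finset (LabF cls c r), Disjoint U S →
  (∀ i ∈ U, ∀ l ∈ U, LF cls c r i l = LF cls c r l i) → QF cls c τ r (U ∪ S) →
  (∑ i ∈ Pool.Agent.L7h19.IS.UL (LF cls c r) U S,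
      wv cls c a b r i (μ i.1.1) (1 - μ i.1.1)) ≤ Fintype.card J ∧
    (S.Nonempty → (∑ i ∈ Pool.Agent.L7h19.IS.UL (LF cls c r) U S,
      wv cls c a b r i (μ i.1.1) (1 - μ i.1.1)) < Fintype.card J)

/-! ## The values of polynomials -/

/-- the pattern of the primes of `s` for the residue class `t` and the set `N` of the primes of the
class `3` at which `f_j(t) / p` is not a square. `κ j 0` (class `≠ 3`) decides the splitting; in the
class `3` `F i = κ j i * f j`. -/
noncomputable def nF (cls : J → Fin 4) (κ : J → Fin 3 → ℤ[X]) (s : J → ℕ) (t : ℤ) (N : Finset ℕ) :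
    Fin 3 → Finset ℕ := by
  classical
  exact fun i => (Q0 s).filter (fun p => ∃ j, p ∣ s j ∧
    ((cls j ≠ 3 ∧ i = 0 ∧ jacobiSym ((κ j 0).eval t) p = -1) ∨
      (cls j = 3 ∧ (jacobiSym ((κ j i).eval t) p = -1 ↔ p ∉ N))))

open Classical in
/-- the weights of the patterns -/
noncomputable def WP (cls : J → Fin 4) (f : J → ℤ[X]) (κ : J → Fin 3 → ℤ[X]) (c : ℕ) (j : J)
    (π : Pat) (p : ℕ) : ℝ :=
  1 / ((p : ℝ) - c) * ∑ ν ∈ (range p).filter (fun ν : ℕ => (p : ℤ) ∣ (f j).eval (ν : ℤ)),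
    (if cls j = 3 then
      ((if ∀ i, (π i = true ↔ jacobiSym ((κ j i).eval (ν : ℤ)) p = -1) then 1 else 0) +
        (if ∀ i, (π i = true ↔ ¬ jacobiSym ((κ j i).eval (ν : ℤ)) p = -1) then 1 else 0)) / 2
      else if (π 0 = true ↔ jacobiSym ((κ j 0).eval (ν : ℤ)) p = -1) ∧ π 1 = false ∧ π 2 = false
        then 1 else 0)

/-- the sum over the residue classes and the signs -/
noncomputable def RSum (cls : J → Fin 4) (f : J → ℤ[X]) (κ : J → Fin 3 → ℤ[X])
    (Ψ : (J → ℕ) → (Fin 3 → Finset ℕ) → ℝ) (s : J → ℕ) : ℝ :=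
  ∑ r ∈ Rs f s, (1 / 2) ^ (P3 cls s).card *
    ∑ N ∈ (P3 cls s).powerset, Ψ s (nF cls κ s (r : ℤ) N)

/-- **S_CRD**: the sum over the residue classes and the signs (adapt `Pool.Agent.L7h46.FT.s_CRT`). -/
def S_CRD : Prop := ∀ (J : Type) [Fintype J] [DecidableEq J] (cls : J → Fin 4) (f : J → ℤ[X])
  (κ : J → Fin 3 → ℤ[X]) (c z y : ℕ), 2 ≤ z → c < z →
  ∀ s ∈ Tup J z y, ∀ Ψ : (J → ℕ) → (Fin 3 → Finset ℕ) → ℝ,
    RSum cls f κ Ψ s * ∏ j, gw 1 c (s j) = avE (WP cls f κ c) (Ψ s) s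

/-- **S_GRD**: growth of `RSum` (adapt `Pool.Agent.L7h78.FT.s_GRR`; the signs at the new primes are
averaged). -/
def S_GRD : Prop := ∀ (J : Type) [Fintype J] [DecidableEq J] (cls : J → Fin 4) (f : J → ℤ[X])
  (κ : J → Fin 3 → ℤ[X]) (c z y : ℕ) (b : ℝ) (Ψ : (J → ℕ) → (Fin 3 → Finset ℕ) → ℝ), 2 ≤ z → 0 ≤ b →
  (∀ p : ℕ, p.Prime → z < p → ∀ j, rho (f j) p ≤ c) →
  (∀ s E, 0 ≤ Ψ s E) →
  (∀ (s e : J → ℕ) (E : Fin 3 → Finset ℕ), (fun j => s j * e j) ∈ Tup J z y →
    Ψ s E = Ψ s (fun i => E i ∩ Q0 s) ∧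
    Ψ (fun j => s j * e j) E ≤ b ^ (∑ j, (e j).primeFactors.card) * Ψ s E) →
  ∀ s e : J → ℕ, (fun j => s j * e j) ∈ Tup J z y →
    RSum cls f κ Ψ (fun j => s j * e j) ≤
      (b * c) ^ (∑ j, (e j).primeFactors.card) * RSum cls f κ Ψ s

/-! ## The rank -/

open Pool.Agent.L7h19.FT (sp)
open Pool.Agent.L7h19.IS (om)

/-- the `δ_c` of the curve `y² = x (x - D A) (x - D B)` -/
def dz (D A B : ℤ) (c : Fin 3) : ℤ :=
  if c = 0 then (sp (-(D * B)) A : ℤ) + sp (-(B * (A - B))) D - om B - om (A - B) - om D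
  else if c = 1 then (sp (-(D * A)) B : ℤ) + sp (A * (A - B)) D - om A - om (A - B) - om D
  else (sp (D * A) (A - B) : ℤ) + sp (A * B) D - om A - om B - om D

/-- the normalizing exponent of the curve -/
def ez (G : Finset (Fin 3)) (D A B : ℤ) : ℕ :=
  (univ.filter (fun c => c ∉ G)).sup (fun c => (dz D A B c).toNat)

/-- the values: `A, B, A - B, D` for `c = 0, 1, 2, 3` -/
def Fv (cls : J → Fin 4) (a : Fin 4 → ℤ) (x : J → ℤ) (c : Fin 4) : ℤ :=
  a c * ∏ j ∈ univ.filter (fun j => cls j = c), x j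

/-- the three numbers `D A`, `D B`, `D (A - B)` -/
def F3 (D A B : ℤ) (i : Fin 3) : ℤ := if i = 0 then D * A else if i = 1 then D * B else D * (A - B)

/-- the number whose symbol decides the splitting, for the classes `0, 1, 2` -/
def kz (D A B : ℤ) (c : Fin 4) : ℤ :=
  if c = 0 then -(D * B) else if c = 1 then -(D * A) else D * A

/-- **S_RKD**: the bound for values, from `StRank` (`Pool/Agent/L7h19/RP/Defs.lean`, theorem
`Pool.Agent.L7h19.RP.parts.rank`; `c = some ∘ cls`, the constants `a 3 * a k`, or from its proof) with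
`NL … = N0 (mc cls s) E`; the exponents `dz` and `dl` differ by at most the number of the other
primes; adapt `Pool.Agent.L7h89.FT.s_RKF`. -/
def S_RKD : Prop := ∀ (J : Type) [Fintype J] [DecidableEq J] (cls : J → Fin 4) (a : Fin 4 → ℤ)
  (G : Finset (Fin 3)) (x : J → ℤ) (D A B : ℤ) (z y X k d : ℕ) (E : Fin 3 → Finset ℕ), 2 ≤ z →
  Gd z x → (∀ c, a c ≠ 0) → (∀ p : ℕ, p.Prime → z < p → ∀ c, ¬ (p : ℤ) ∣ a c) →
  A = Fv cls a x 0 → B = Fv cls a x 1 → A - B = Fv cls a x 2 → D = Fv cls a x 3 →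
  (∀ j, (x j).natAbs ≤ X ^ d) → 1 ≤ X → 1 ≤ y → X < (y + 1) ^ k →
  (∀ j (p : ℕ), p.Prime → p ∣ S1 z y x j →
    (cls j ≠ 3 → (p ∈ E 0 ↔ jacobiSym (kz D A B (cls j)) p = -1)) ∧
    (cls j = 3 → ∀ i, (p ∈ E i ↔ jacobiSym (F3 D A B i / p) p = -1))) →
  (2 : ℝ) ^ ((Module.finrank ℤ (EAB (D * A) (D * B)).toAffine.Point : ℕ) -
      (ez G D A B : ℝ) : ℝ) ≤
    64 ^ (z + 2) * (64 ^ (d * Fintype.card J)) ^ k * 64 ^ (∑ j, (S2 z y x j).primeFactors.card) *
      gF G (mc cls (S1 z y x)) E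

end Pool.Agent.L7h19.FD
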