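import Mathlib
import Pool.Agent.L7h19.FD.Stm
import Pool.Agent.L7h19.FT.Wh

/-!
# Project FD: the hypotheses on the weights, and the mean values
-/

set_option autoImplicit false

namespace Pool.Agent.L7h19.FD

open Finset Polynomial Pool.Agent.W262.RK Pool.Agent.W307.RT Pool.Agent.L7h19.RP
open Pool.Agent.L7h19.IS (om)
open Pool.Agent.L7h19.FT (mu sp)

variable {J : Type} [Fintype J] [DecidableEq J]

/-- the hypotheses on the weights; `μ c j` is the mean of the weights with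
`dg … (dc c) (dc c) = 0`, for `j` of the classes `c` and `3` -/
def WHyp (W : J → Pat → ℕ → ℝ) (cls : J → Fin 4) (μ : Fin 3 → J → ℝ) : Prop := ∃ G zb : ℕ,
  (∀ z, zb ≤ z → ∀ p : ℕ, p.Prime → z < p → ∀ j, (∀ π, 0 ≤ W j π p) ∧
    ∑ π, W j π p ≤ (G : ℝ) / p) ∧
  (∀ z, zb ≤ z → ∀ j, ∃ C : ℝ, ∀ y : ℕ, 2 ≤ y →
    ∑ p ∈ PS z y, ∑ π, W j π p ≤ Real.log (Real.log y) + C) ∧
  (∀ z, zb ≤ z → ∀ (c : Fin 3) (j : J), cls j = c.castSucc ∨ cls j = 3 → ∃ C : ℝ, ∀ y : ℕ, 2 ≤ y →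
    ∑ p ∈ PS z y, sw W cls c 0 j p ≤ μ c j * Real.log (Real.log y) + C ∧
    ∑ p ∈ PS z y, sw W cls c 1 j p ≤ (1 - μ c j) * Real.log (Real.log y) + C) ∧
  (∀ j π (ε : ℝ), 0 < ε → ∃ z0 : ℕ, ∀ z, z0 ≤ z → ∃ C : ℝ, ∀ (y r : ℕ) (t : Bool), z < y → 1 < r →
    Squarefree r → (∀ p : ℕ, p.Prime → p ∣ r → z < p) →
    |∑ p ∈ PS z y, W j π p * (Jr p r * x4 t p)| ≤ ε * Real.log r + C)

/-- the product of the `κ i` whose symbol is `(-1) ^ dg … (dc c) (dc c)`, class `3` -/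
noncomputable def kc (c : Fin 3) (κ : Fin 3 → ℤ[X]) : ℤ[X] :=
  if c = 0 then -(κ 1 * κ 2) else if c = 1 then κ 0 * κ 2 else κ 0 * κ 1

/-- the mean values -/
noncomputable def muD (cls : J → Fin 4) (f : J → ℤ[X]) (κ : J → Fin 3 → ℤ[X]) (c : Fin 3)
    (j : J) : ℝ :=
  if cls j = 3 then mu (f j) (kc c (κ j)) else mu (f j) (κ j 0)

/-- **S_WHD**: the weights `WP` (adapt `Pool.Agent.L7h19.FT.wh`, `Pool/Agent/L7h19/FT/Wh.lean`; from
`S_UP2`, `S_UP02`, `S_SQ`). Class `≠ 3`: `WP` is `(gaw ± bw (κ j 0)) / 2` for the two patterns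
`(b, false, false)` and `0` for the others (for large `p` the symbols at the roots are not `0`:
`large_nd`). Class `3`: with `χ i` the symbol of `κ j i` at the root, the indicator of
`χ i = (-1) ^ π i` for all `i` is `∏ i, (1 + (-1) ^ π i χ i) / 2`, so `WP` is
`1 / 8 ∑_{I} (-1) ^ π(I) bw (f j) (∏_{i ∈ I} κ j i) 1 c p` over the `I ⊆ {0, 1, 2}` with `|I|` even.
`sw … c σ`: by `ph n ε (dc c) (dc c) = n 1 + n 2 + ε`, `n 0 + n 2`, `n 0 + n 1` for `c = 0, 1, 2` it is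
`(gaw ± bw (kc c (κ j))) / 2` (for `c = 0` the `ε` is the symbol of `-1`). -/
def S_WHD : Prop := ∀ (J : Type) [Fintype J] [DecidableEq J] (cls : J → Fin 4) (f : J → ℤ[X])
  (κ : J → Fin 3 → ℤ[X]) (c : ℕ), (∀ j, Irreducible (f j)) → (∀ j, 0 < (f j).natDegree) →
  (∀ j i, ¬ f j ∣ κ j i) → WHyp (WP cls f κ c) cls (muD cls f κ)

/-- the number whose symbol decides the value of the form on the direction of `c`, class `3` -/
def kd (A B : ℤ) (c : Fin 3) : ℤ :=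
  if c = 0 then -(B * (A - B)) else if c = 1 then A * (A - B) else A * B

/-- **S_DZD**: `dz` is the sum over the factors, up to a bounded error (adapt
`Pool.Agent.L7h78.FT.s_DZ2`). -/
def S_DZD : Prop := ∀ (J : Type) [Fintype J] [DecidableEq J] (cls : J → Fin 4) (a : Fin 4 → ℤ)
  (x : J → ℤ) (D A B : ℤ) (z : ℕ) (c : Fin 3), 2 ≤ z → Gd z x → (∀ c, a c ≠ 0) →
  A = Fv cls a x 0 → B = Fv cls a x 1 → A - B = Fv cls a x 2 → D = Fv cls a x 3 →
  |dz D A B c -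
    (∑ j ∈ univ.filter (fun j => cls j = c.castSucc), (sp (kz D A B c.castSucc) (x j) : ℤ) +
      ∑ j ∈ univ.filter (fun j => cls j = 3), (sp (kd A B c) (x j) : ℤ) -
      ∑ j ∈ univ.filter (fun j => cls j ≠ c.castSucc), (om (x j) : ℤ))| ≤
    ((2 * (Fintype.card J + 5) * (z + ∑ c, (a c).natAbs.primeFactors.card) : ℕ) : ℤ)

end Pool.Agent.L7h19.FD
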