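import Mathlib
import Pool.Agent.L7h19.IT.Gen
import Pool.Agent.L7h19.FT.Ana

/-!
# Project FD: the general upper bound for sums over labels, for arbitrary weights
-/

set_option autoImplicit false
set_option linter.unusedSectionVars false

namespace Pool.Agent.L7h19.FD

open Finset Polynomial Pool.Agent.W262.RK Pool.Agent.L7h19.RP Pool.Agent.L7h19.IS
open Pool.Agent.L7h19.RP.AT (gm hq BWg)

theorem genB (hBW : StBW) (hFr : StFree) {ι : Type} [Fintype ι] [DecidableEq ι]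
    (b : ι → ℕ → ℝ) (w : ι → ℝ) (g : ℝ) (hg0 : 0 ≤ g) (hw : ∀ i, 0 < w i ∧ w i ≤ 1 / 2)
    (hb : ∃ zb : ℕ, ∀ z, zb ≤ z → ∀ i (p : ℕ), p.Prime → z < p → |b i p| ≤ g / p)
    (hγ : ∃ zb : ℕ, ∀ z, zb ≤ z → ∀ i, ∃ C : ℝ, ∀ y : ℕ, 2 ≤ y →
      ∑ p ∈ PS z y, |b i p| ≤ w i * Real.log (Real.log y) + C)
    (hch : ∀ i (ε : ℝ), 0 < ε → ∃ z0 : ℕ, ∀ z, z0 ≤ z → ∃ C : ℝ, ∀ (y r : ℕ) (t : Bool), z < y →
      1 < r → Squarefree r → (∀ p : ℕ, p.Prime → p ∣ r → z < p) →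
      |∑ p ∈ PS z y, b i p * (Jr p r * x4 t p)| ≤ ε * Real.log r + C)
    (L : ι → ι → Bool) (hL : ∀ i, L i i = false)
    (Q : Finset ι → Prop) [DecidablePred Q] (K : ℝ) (hK0 : 0 ≤ K)
    (hK : ∀ U S : Finset ι, Disjoint U S → (∀ i ∈ U, ∀ j ∈ U, L i j = L j i) → Q (U ∪ S) →
      ∑ i ∈ UL L U S, w i ≤ K ∧ (S.Nonempty → ∑ i ∈ UL L U S, w i < K)) :
    ∃ z0 : ℕ, ∀ z, z0 ≤ z → ∃ C : ℝ, ∀ y, z < y →
      |∑ d ∈ (Tup ι z y).filter (fun d => Q (univ.filter (fun i => d i ≠ 1))),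
        (∏ i, gm (b i) (d i)) * Sym L (fun _ => 1) d| ≤
        C * (Real.log y) ^ K := by
  classical
  obtain ⟨za, ha⟩ := hb
  obtain ⟨zc, hc⟩ := hγ
  set M : ℕ := Fintype.card ι with hM
  obtain ⟨C2, E2, hC2, hbw⟩ := hBW g (M : ℝ) hg0
  obtain ⟨δ, hδ, _, hδK⟩ := Pool.Agent.L7h19.RP.AT.exists_gap w (fun a => (hw a).1) K
  set A' : ℕ := 6 * (M + 2 * E2) with hA
  set ε : ℝ := δ / 2 / (A' * (M : ℝ) ^ 2 + 1) with hε
  have hden : (0 : ℝ) < A' * (M : ℝ) ^ 2 + 1 := by positivity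
  have hε0 : 0 < ε := by positivity
  have hεA : (A' : ℝ) * (ε * (M : ℝ) ^ 2) ≤ δ / 2 := by
    have e1 : (A' : ℝ) * (ε * (M : ℝ) ^ 2) =
        δ / 2 * ((A' * (M : ℝ) ^ 2) / (A' * (M : ℝ) ^ 2 + 1)) := by
      rw [hε]
      field_simp
    rw [e1]
    have e2 : (A' * (M : ℝ) ^ 2) / (A' * (M : ℝ) ^ 2 + 1) ≤ 1 := by
      rw [div_le_one hden]
      linarith
    have e3 : 0 ≤ δ / 2 := by positivity
    calc δ / 2 * ((A' * (M : ℝ) ^ 2) / (A' * (M : ℝ) ^ 2 + 1)) ≤ δ / 2 * 1 :=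
          mul_le_mul_of_nonneg_left e2 e3
      _ = δ / 2 := mul_one _
  set B' : ℕ := ⌈2 * (M * g)⌉₊ with hB'
  have hBg : 2 * (M * g) ≤ B' := Nat.le_ceil _
  choose z1 hz1 using fun a : ι => hch a ε hε0
  refine ⟨∑ a, z1 a + za + zc + B' + 2, fun z hz => ?_⟩
  have hz1' : ∀ a, z1 a ≤ z := fun a => (le_sum_nat z1 a).trans (by omega)
  choose C1 hC1 using fun a : ι => hz1 a z (hz1' a)
  have hbz := ha z (by omega)
  set γ : ι → ℕ → ℝ := fun i p => |b i p| with hγ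
  have hγ0 : ∀ i (p : ℕ), p.Prime → z < p → 0 ≤ γ i p := fun i p _ _ => abs_nonneg _
  have hγg : ∀ i (p : ℕ), p.Prime → z < p → γ i p ≤ g / p := fun i p hp hzp => hbz i p hp hzp
  have hfull : ∀ i : ι, ∃ C : ℝ,
      (∀ y, z < y → ∑ d ∈ (PP z y).divisors, gm (γ i) d * hq B' d ≤ C * (Real.log y) ^ (w i)) ∧
      (∀ y V : ℕ, z < y → 2 ≤ V →
        ∑ d ∈ (PP z y).divisors.filter (fun d => d ≤ V), gm (γ i) d * hq B' d ≤
          C * (Real.log V) ^ (w i)) ∧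
      (∀ y Y : ℕ, z < y → 1 ≤ Y →
        ∑ d ∈ (PP z y).divisors.filter (fun d => Y < d), gm (γ i) d * hq B' d ≤
          C * Real.exp (-(Real.log Y / Real.log y)) * (Real.log y) ^ 2) := by
    intro i
    obtain ⟨C0, hC0⟩ := hc z (by omega) i
    refine full_g (G := g) (C0 := |C0|)
      (hw i).1 (hw i).2 (by omega) (hγ0 i) (hγg i) hg0 (abs_nonneg _) fun y hy => ?_
    have h1 := hC0 y hy
    have h2 := le_abs_self C0
    exact h1.trans (by linarith)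
  choose C3 hC3 using hfull
  set C : ℝ := 1 + ∑ a, |C3 a| with hC
  set D1 : ℝ := ∑ a, |C1 a| with hD1
  have hs1 : 0 ≤ ∑ a, |C1 a| := sum_nonneg fun _ _ => abs_nonneg _
  have hD10 : 0 ≤ D1 := hs1
  have hs3 : 0 ≤ ∑ a, |C3 a| := sum_nonneg fun _ _ => abs_nonneg _
  have hCC3 : ∀ a, C3 a ≤ C := fun a => by have := le_sum_abs C3 a; linarith
  have hBd : Pool.Agent.L7h19.RP.AT.Bd b γ w z B' C := by
    refine ⟨fun a => (hw a).1, fun a => (hw a).2.trans (by norm_num), by omega, by linarith,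
      fun a p hp hzp => le_rfl, fun a y hy => ?_,
      fun a y V hy hV => ?_, fun a y Y hy hY => ?_⟩
    · refine ((hC3 a).1 y hy).trans ?_
      exact mul_le_mul_of_nonneg_right (hCC3 a) (Real.rpow_nonneg (Real.log_natCast_nonneg _) _)
    · refine ((hC3 a).2.1 y V hy hV).trans ?_
      exact mul_le_mul_of_nonneg_right (hCC3 a) (Real.rpow_nonneg (Real.log_natCast_nonneg _) _)
    · refine ((hC3 a).2.2 y Y hy hY).trans ?_
      exact mul_le_mul_of_nonneg_right (mul_le_mul_of_nonneg_right (hCC3 a) (Real.exp_pos _).le)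
        (by positivity)
  have hHN : HH2 b w L Q K z A' ε D1 δ := by
    refine ⟨hL, hK0, hK, hδ, hδK, hε0.le, hD10, hεA, ?_⟩
    intro a y r s hy hr hrs hrp
    refine (le_abs_self _).trans ((hC1 a y r s hy hr hrs hrp).trans ?_)
    have := le_sum_abs C1 a
    linarith
  obtain ⟨C', hC'⟩ := at_h hFr hBd hC2 hbw hg0 hγg (by
      have h1 : (B' : ℝ) ≤ z := by exact_mod_cast (by omega : B' ≤ z)
      linarith) hBg le_rfl hHN
  exact ⟨C', fun y hy => hC' y hy⟩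

end Pool.Agent.L7h19.FD
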