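import Mathlib
import Pool.Agent.L7h19.FD.Ana
import Pool.Agent.L7h19.FD.Stm2

/-!
# Project FD: the general upper bound, for combinations of the weights of the patterns
-/

set_option autoImplicit false
set_option linter.unusedSectionVars false

namespace Pool.Agent.L7h19.FD

open Finset Polynomial Pool.Agent.W262.RK Pool.Agent.L7h19.RP Pool.Agent.L7h19.IS
open Pool.Agent.L7h19.RP.AT (gm hq BWg)

variable {J : Type} [Fintype J] [DecidableEq J]

lemma PSm {z y p : ℕ} (hp : p ∈ PS z y) : p.Prime ∧ z < p := by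
  have h := mem_PS.1 hp
  exact ⟨h.2, h.1.1⟩

lemma x4_m4 {p : ℕ} (hp : p.Prime) (h2 : 2 < p) (F : ZMod 2 → ℝ) :
    F (m4 p) = (F 0 + F 1) / 2 + (F 0 - F 1) / 2 * x4 true p := by
  have hodd : p % 2 = 1 := (hp.eq_two_or_odd).resolve_left (by omega)
  unfold m4 x4
  rcases (by omega : p % 4 = 1 ∨ p % 4 = 3) with h | h
  · rw [if_pos rfl, ZMod.χ₄_nat_one_mod_four h, if_neg (by omega)]
    push_cast
    ring
  · rw [if_pos rfl, ZMod.χ₄_nat_three_mod_four h, if_pos h]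
    push_cast
    ring

lemma x4_xor {p : ℕ} (hp : p.Prime) (h2 : 2 < p) (t : Bool) :
    x4 true p * x4 t p = x4 (!t) p := by
  rw [Pool.Agent.W262.RK.x4_mul (hp.odd_of_ne_two (by omega))]
  simp

/-- the weights of the labels -/
noncomputable def bC (W : J → Pat → ℕ → ℝ) {ι : Type} (π : ι → J) (g : ι → Pat → ZMod 2 → ℝ)
    (i : ι) (p : ℕ) : ℝ := ∑ q : Pat, g i q (m4 p) * W (π i) q p

theorem genC (hBW : StBW) (hFr : StFree) {W : J → Pat → ℕ → ℝ} {cls : J → Fin 4}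
    {μ : Fin 3 → J → ℝ} (hW : WHyp W cls μ) {ι : Type} [Fintype ι] [DecidableEq ι] (π : ι → J)
    (g : ι → Pat → ZMod 2 → ℝ) (w : ι → ℝ) (hw : ∀ i, 0 < w i ∧ w i ≤ 1 / 2)
    (hg : ∀ i q e, |g i q e| ≤ 1)
    (hγ : ∃ zb : ℕ, ∀ z, zb ≤ z → ∀ i, ∃ C : ℝ, ∀ y : ℕ, 2 ≤ y →
      ∑ p ∈ PS z y, |bC W π g i p| ≤ w i * Real.log (Real.log y) + C)
    (L : ι → ι → Bool) (hL : ∀ i, L i i = false)
    (Q : Finset ι → Prop) [DecidablePred Q] (K : ℝ) (hK0 : 0 ≤ K)
    (hK : ∀ U S : Finset ι, Disjoint U S → (∀ i ∈ U, ∀ j ∈ U, L i j = L j i) → Q (U ∪ S) →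
      ∑ i ∈ UL L U S, w i ≤ K ∧ (S.Nonempty → ∑ i ∈ UL L U S, w i < K)) :
    ∃ z0 : ℕ, ∀ z, z0 ≤ z → ∃ C : ℝ, ∀ y, z < y →
      |∑ d ∈ (Tup ι z y).filter (fun d => Q (univ.filter (fun i => d i ≠ 1))),
        (∏ i, gm (bC W π g i) (d i)) * Sym L (fun _ => 1) d| ≤
        C * (Real.log y) ^ K := by
  classical
  obtain ⟨G, zb, hW1, hW2, hW3, hW4⟩ := hW
  refine genB hBW hFr (bC W π g) w (G : ℝ) (Nat.cast_nonneg _) hw ⟨zb, fun z hz i p hp hzp => ?_⟩
    hγ (fun i ε hε => ?_) L hL Q K hK0 hK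
  · obtain ⟨h1, h2⟩ := hW1 z hz p hp hzp (π i)
    refine le_trans ?_ h2
    unfold bC
    refine (abs_sum_le_sum_abs _ _).trans (sum_le_sum fun q _ => ?_)
    rw [abs_mul, abs_of_nonneg (h1 q)]
    exact mul_le_of_le_one_left (h1 q) (hg i q _)
  · set n : ℝ := (Fintype.card Pat : ℝ) with hn
    have hn0 : 0 < n := by
      rw [hn]
      exact_mod_cast Fintype.card_pos
    have hε1 : 0 < ε / (2 * n) := by positivity
    choose z1 hz1 using fun q : Pat => hW4 (π i) q (ε / (2 * n)) hε1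
    refine ⟨∑ q, z1 q + 2, fun z hz => ?_⟩
    have hz1' : ∀ q, z1 q ≤ z := fun q => (le_sum_nat z1 q).trans (by omega)
    choose C1 hC1 using fun q : Pat => hz1 q z (hz1' q)
    refine ⟨2 * ∑ q, |C1 q|, fun y r t hy hr hrs hrp => ?_⟩
    have hlog : 0 ≤ Real.log r := Real.log_natCast_nonneg _
    set S : Pat → Bool → ℝ := fun q t => ∑ p ∈ PS z y, W (π i) q p * (Jr p r * x4 t p) with hS
    have hSb : ∀ q t, |S q t| ≤ ε / (2 * n) * Real.log r + |C1 q| := fun q t =>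
      (hC1 q y r t hy hr hrs hrp).trans (by linarith [le_abs_self (C1 q)])
    have e1 : ∑ p ∈ PS z y, bC W π g i p * (Jr p r * x4 t p) =
        ∑ q, ((g i q 0 + g i q 1) / 2 * S q t + (g i q 0 - g i q 1) / 2 * S q (!t)) := by
      rw [hS]
      dsimp only
      simp only [mul_sum, ← sum_add_distrib]
      rw [sum_comm]
      refine sum_congr rfl fun p hp => ?_
      have hp2 := PSm hp
      unfold bC
      rw [sum_mul]
      refine sum_congr rfl fun q _ => ?_
      rw [x4_m4 hp2.1 (by omega) (g i q), ← x4_xor hp2.1 (by omega) t]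
      ring
    rw [e1]
    refine (abs_sum_le_sum_abs _ _).trans ?_
    have e2 : ∀ q : Pat, |(g i q 0 + g i q 1) / 2 * S q t + (g i q 0 - g i q 1) / 2 * S q (!t)| ≤
        2 * (ε / (2 * n) * Real.log r + |C1 q|) := by
      intro q
      have f1 := hg i q 0
      have f2 := hg i q 1
      have f3 : |(g i q 0 + g i q 1) / 2| ≤ 1 := by
        rw [abs_le] at f1 f2 ⊢
        constructor <;> linarith [f1.1, f1.2, f2.1, f2.2]
      have f4 : |(g i q 0 - g i q 1) / 2| ≤ 1 := by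
        rw [abs_le] at f1 f2 ⊢
        constructor <;> linarith [f1.1, f1.2, f2.1, f2.2]
      refine (abs_add_le _ _).trans ?_
      rw [abs_mul, abs_mul]
      have f5 := mul_le_of_le_one_left (abs_nonneg (S q t)) f3
      have f6 := mul_le_of_le_one_left (abs_nonneg (S q (!t))) f4
      have f7 := hSb q t
      have f8 := hSb q (!t)
      linarith
    refine (sum_le_sum fun q _ => e2 q).trans (le_of_eq ?_)
    rw [← mul_sum, sum_add_distrib, sum_const, nsmul_eq_mul, card_univ, ← hn]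
    field_simp

end Pool.Agent.L7h19.FD
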