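import Mathlib
import Pool.Agent.L7h19.FD.Gen
import Pool.Agent.L7h19.IS.Avg

/-!
# Project FD: the average of the majorant
-/

set_option autoImplicit false
set_option linter.unusedSectionVars false

namespace Pool.Agent.L7h19.FD

open Finset Polynomial Pool.Agent.W262.RK Pool.Agent.L7h19.RP Pool.Agent.L7h19.IS
open Pool.Agent.L7h19.RP.AT (gm hq BWg)
open Pool.Agent.L7h19.RH (Q0)

variable {J : Type} [Fintype J] [DecidableEq J] {z y : ℕ}

lemma Tup_prime {s : J → ℕ} (hs : s ∈ Tup J z y) {j : J} {p : ℕ} (hp : p ∈ (s j).primeFactors) :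
    p.Prime ∧ z < p := by
  have hpp := Nat.prime_of_mem_primeFactors hp
  exact ⟨hpp, (dv_prime ((AT.mem_Tup'.1 hs).1 j) hpp (Nat.dvd_of_mem_primeFactors hp)).1⟩

lemma WE_nonneg {W : J → Pat → ℕ → ℝ}
    (h : ∀ p : ℕ, p.Prime → z < p → ∀ j π, 0 ≤ W j π p) {s : J → ℕ} (hs : s ∈ Tup J z y)
    (E : Fin 3 → Finset ℕ) : 0 ≤ WE W s E := by
  unfold WE
  refine prod_nonneg fun j _ => prod_nonneg fun p hp => ?_
  obtain ⟨h1, h2⟩ := Tup_prime hs hp
  exact h p h1 h2 j _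

lemma avE_mono {W : J → Pat → ℕ → ℝ}
    (h : ∀ p : ℕ, p.Prime → z < p → ∀ j π, 0 ≤ W j π p) {s : J → ℕ} (hs : s ∈ Tup J z y)
    {Φ Ψ : (Fin 3 → Finset ℕ) → ℝ} (hΦ : ∀ E, Φ E ≤ Ψ E) : avE W Φ s ≤ avE W Ψ s := by
  unfold avE
  exact sum_le_sum fun E _ => mul_le_mul_of_nonneg_right (hΦ E) (WE_nonneg h hs E)

lemma avE_add (W : J → Pat → ℕ → ℝ) (Φ Ψ : (Fin 3 → Finset ℕ) → ℝ) (s : J → ℕ) :
    avE W (fun E => Φ E + Ψ E) s = avE W Φ s + avE W Ψ s := by
  unfold avE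
  rw [← sum_add_distrib]
  exact sum_congr rfl fun E _ => by ring

lemma avE_smul (W : J → Pat → ℕ → ℝ) (a : ℝ) (Φ : (Fin 3 → Finset ℕ) → ℝ) (s : J → ℕ) :
    avE W (fun E => a * Φ E) s = a * avE W Φ s := by
  unfold avE
  rw [mul_sum]
  exact sum_congr rfl fun E _ => by ring

lemma avE_sum {κ : Type} (T : Finset κ) (W : J → Pat → ℕ → ℝ)
    (Φ : κ → (Fin 3 → Finset ℕ) → ℝ) (s : J → ℕ) :
    avE W (fun E => ∑ c ∈ T, Φ c E) s = ∑ c ∈ T, avE W (Φ c) s := by
  unfold avE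
  rw [sum_comm]
  exact sum_congr rfl fun E _ => by rw [sum_mul]

lemma wv_lin (cls : J → Fin 4) (c : Fin 3) (a b r : ℕ) (i : LabF cls c r) (S0 S1 : ℝ) :
    wv cls c a b r i S0 S1 = wv cls c a b r i 1 0 * S0 + wv cls c a b r i 0 1 * S1 := by
  unfold wv
  split_ifs <;> ring

lemma wv_pos (cls : J → Fin 4) (c : Fin 3) (a b r : ℕ) (i : LabF cls c r) :
    0 < wv cls c a b r i 1 0 ∧ wv cls c a b r i 1 0 ≤ 1 / 2 ∧
    0 ≤ wv cls c a b r i 0 1 ∧ wv cls c a b r i 0 1 ≤ 1 / 2 := by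
  have ha : (1 : ℝ) / 2 ^ a ≤ 1 := by
    rw [div_le_one (by positivity)]
    exact one_le_pow₀ (by norm_num)
  have hb : (1 : ℝ) / 2 ^ b ≤ 1 := by
    rw [div_le_one (by positivity)]
    exact one_le_pow₀ (by norm_num)
  have ha0 : (0 : ℝ) < 1 / 2 ^ a := by positivity
  have hb0 : (0 : ℝ) < 1 / 2 ^ b := by positivity
  have hab : (1 : ℝ) / 2 ^ a * (1 / 2 ^ b) ≤ 1 := mul_le_one₀ ha hb0.le hb
  have hab0 : (0 : ℝ) < 1 / 2 ^ a * (1 / 2 ^ b) := by positivity
  unfold wv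
  simp only [zero_div, add_zero, zero_add]
  split_ifs <;> refine ⟨?_, ?_, ?_, ?_⟩ <;> linarith

lemma sw_add (W : J → Pat → ℕ → ℝ) (cls : J → Fin 4) (c : Fin 3) (j : J) (p : ℕ) :
    sw W cls c 0 j p + sw W cls c 1 j p = ∑ π, W j π p := by
  unfold sw
  rw [← sum_filter_add_sum_filter_not univ (fun π : Pat =>
    dg (cls j) (zb π) (m4 p) (dc c.castSucc) (dc c.castSucc) = 0)]
  congr 1
  refine sum_congr (filter_congr fun π _ => ?_) fun _ _ => rfl
  generalize dg (cls j) (zb π) (m4 p) (dc c.castSucc) (dc c.castSucc) = x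
  revert x
  decide

/-- the coefficients -/
noncomputable def cF (cls : J → Fin 4) (c : Fin 3) (a b r : ℕ) (i : LabF cls c r) (q : Pat)
    (e : ZMod 2) : ℝ :=
  if dg (cls i.1.1) (zb q) e (dc c.castSucc) (dc c.castSucc) = 0 then wv cls c a b r i 1 0
    else wv cls c a b r i 0 1

lemma cF_le (cls : J → Fin 4) (c : Fin 3) (a b r : ℕ) (i : LabF cls c r) (q : Pat)
    (e : ZMod 2) : |cF cls c a b r i q e| ≤ 1 := by
  obtain ⟨h1, h2, h3, h4⟩ := wv_pos cls c a b r i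
  unfold cF
  split_ifs
  · rw [abs_of_pos h1]
    linarith
  · rw [abs_of_nonneg h3]
    linarith

lemma bC_cF (W : J → Pat → ℕ → ℝ) (cls : J → Fin 4) (c : Fin 3) (a b r : ℕ) (i : LabF cls c r)
    (p : ℕ) : bC W (fun i : LabF cls c r => i.1.1) (cF cls c a b r) i p =
      bF W cls c a b r i p := by
  unfold bF
  rw [wv_lin]
  unfold bC sw
  rw [mul_sum, mul_sum, ← sum_filter_add_sum_filter_not univ (fun π : Pat =>
    dg (cls i.1.1) (zb π) (m4 p) (dc c.castSucc) (dc c.castSucc) = 0)]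
  have h1 : ∀ x : ZMod 2, ¬ x = 0 ↔ x = 1 := by decide
  congr 1
  · refine sum_congr rfl fun q hq => ?_
    unfold cF
    rw [if_pos (mem_filter.1 hq).2]
  · refine sum_congr (filter_congr fun q _ => h1 _) fun q hq => ?_
    unfold cF
    rw [if_neg ((h1 _).2 (mem_filter.1 hq).2)]

lemma bF_nonneg {W : J → Pat → ℕ → ℝ} {p : ℕ} (h : ∀ j π, 0 ≤ W j π p) (cls : J → Fin 4)
    (c : Fin 3) (a b r : ℕ) (i : LabF cls c r) : 0 ≤ bF W cls c a b r i p := by
  obtain ⟨h1, _, h3, _⟩ := wv_pos cls c a b r i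
  unfold bF
  rw [wv_lin]
  unfold sw
  exact add_nonneg (mul_nonneg h1.le (sum_nonneg fun q _ => h _ q))
    (mul_nonneg h3 (sum_nonneg fun q _ => h _ q))

/-- the sum of the expansions of `FK` -/
theorem majF (hBW : StBW) (hFr : StFree) (hEx : S_EFD) (hCF : S_CFD) {W : J → Pat → ℕ → ℝ}
    {cls : J → Fin 4} {μ : Fin 3 → J → ℝ} (hW : WHyp W cls μ) (hWS : WSym W cls)
    (hμ : ∀ c j, 0 < μ c j ∧ μ c j ≤ 1) (c : Fin 3) (τ : Bool) (a b r : ℕ)
    (h3 : (τ = false ∧ a = 0 ∧ b = r) ∨ (τ = true ∧ a = r ∧ b = 0) ∨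
    (τ = true ∧ a = 0 ∧ b = r ∧ 1 ≤ r ∧
      2 ^ r * ∑ j ∈ univ.filter (fun j => cls j = c.castSucc), μ c j ≤
        ((univ.filter (fun j => cls j ≠ c.castSucc ∧ cls j ≠ 3)).card : ℝ) +
          ∑ j ∈ univ.filter (fun j => cls j = 3), (1 - μ c j))) :
    ∃ z0 : ℕ, ∀ z, z0 ≤ z → ∃ C : ℝ, ∀ y, z < y →
      ∑ s ∈ Tup J z y, avE W (fun E => FK τ a b r (mc cls s) E c) s ≤
        C * (Real.log y) ^ (Fintype.card J) := by
  classical
  have hW' := hW
  obtain ⟨G, zb, hW1, hW2, hW3, hW4⟩ := hW'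
  obtain ⟨z0, hz0⟩ := genC hBW hFr hW (ι := LabF cls c r) (fun i => i.1.1) (cF cls c a b r)
    (fun i => wv cls c a b r i (μ c i.1.1) (1 - μ c i.1.1)) (fun i => by
      obtain ⟨h1, h2, h3, h4⟩ := wv_pos cls c a b r i
      obtain ⟨m1, m2⟩ := hμ c i.1.1
      rw [wv_lin cls c a b r i (μ c i.1.1) (1 - μ c i.1.1)]
      have e1 : 0 < wv cls c a b r i 1 0 * μ c i.1.1 := mul_pos h1 m1
      have e2 : 0 ≤ wv cls c a b r i 0 1 * (1 - μ c i.1.1) := mul_nonneg h3 (by linarith)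
      have e3 : wv cls c a b r i 1 0 * μ c i.1.1 ≤ 1 / 2 * μ c i.1.1 :=
        mul_le_mul_of_nonneg_right h2 m1.le
      have e4 : wv cls c a b r i 0 1 * (1 - μ c i.1.1) ≤ 1 / 2 * (1 - μ c i.1.1) :=
        mul_le_mul_of_nonneg_right h4 (by linarith)
      constructor <;> linarith) (cF_le cls c a b r) ⟨zb, fun z hz i => by
      obtain ⟨h1, h2, h3, h4⟩ := wv_pos cls c a b r i
      have habs : ∀ y, ∑ p ∈ PS z y, |bC W (fun i : LabF cls c r => i.1.1) (cF cls c a b r) i p| =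
          wv cls c a b r i 1 0 * ∑ p ∈ PS z y, sw W cls c 0 i.1.1 p +
          wv cls c a b r i 0 1 * ∑ p ∈ PS z y, sw W cls c 1 i.1.1 p := by
        intro y
        rw [mul_sum, mul_sum, ← sum_add_distrib]
        refine sum_congr rfl fun p hp => ?_
        rw [bC_cF, abs_of_nonneg (bF_nonneg (fun j π => (hW1 z hz p (PSm hp).1 (PSm hp).2 j).1 π)
          cls c a b r i)]
        unfold bF
        rw [wv_lin]
      by_cases hc : cls i.1.1 = c.castSucc ∨ cls i.1.1 = 3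
      · obtain ⟨C, hC⟩ := hW3 z hz c i.1.1 hc
        refine ⟨(wv cls c a b r i 1 0 + wv cls c a b r i 0 1) * C, fun y hy => ?_⟩
        obtain ⟨f1, f2⟩ := hC y hy
        rw [habs, wv_lin cls c a b r i (μ c i.1.1) (1 - μ c i.1.1)]
        have g1 := mul_le_mul_of_nonneg_left f1 h1.le
        have g2 := mul_le_mul_of_nonneg_left f2 h3
        linarith
      · obtain ⟨C, hC⟩ := hW2 z hz i.1.1
        refine ⟨wv cls c a b r i 1 0 * C, fun y hy => ?_⟩
        have f1 := hC y hy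
        have e1 : wv cls c a b r i 0 1 = wv cls c a b r i 1 0 := by
          unfold wv
          rw [if_neg hc, if_neg hc]
          ring
        rw [habs, wv_lin cls c a b r i (μ c i.1.1) (1 - μ c i.1.1), e1, ← mul_add,
          ← sum_add_distrib, sum_congr rfl fun p _ => sw_add W cls c i.1.1 p]
        have g1 := mul_le_mul_of_nonneg_left f1 h1.le
        linarith⟩
    (LF cls c r) (fun i => by
      unfold LF
      rw [i.2.2.2]
      simp) (QF cls c τ r) ((Fintype.card J : ℕ) : ℝ)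
    (Nat.cast_nonneg _) (fun U S hUS hU hQ => hCF J cls c (μ c) τ a b r (hμ c) h3 U S hUS hU hQ)
  refine ⟨z0 + 2, fun z hz => ?_⟩
  obtain ⟨C, hC⟩ := hz0 z (by omega)
  refine ⟨C, fun y hy => ?_⟩
  rw [hEx J cls c W τ a b r z y (by omega) hWS]
  refine (le_trans (le_of_eq ?_) (le_abs_self _)).trans ((hC y hy).trans (le_of_eq ?_))
  · refine sum_congr rfl fun d _ => ?_
    congr 1
    refine prod_congr rfl fun i _ => ?_
    congr 1
    funext p
    exact (bC_cF W cls c a b r i p).symm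
  · rw [Real.rpow_natCast]

lemma sn_abs (x : ZMod 2) : |((sn x : ℤ) : ℝ)| = 1 := by
  unfold sn
  split_ifs <;> simp

lemma wT_pos (cls : J → Fin 4) {k : ℕ} (hk : 1 ≤ k) (i : LabT cls k) :
    0 < wT cls k i ∧ wT cls k i ≤ 1 / 2 := by
  have h2k : (2 : ℝ) ≤ 2 ^ k := by
    calc (2 : ℝ) = 2 ^ 1 := by norm_num
      _ ≤ _ := pow_le_pow_right₀ (by norm_num) hk
  have h4k : (2 : ℝ) ≤ 4 ^ k := by
    calc (2 : ℝ) ≤ 4 ^ 1 := by norm_num
      _ ≤ _ := pow_le_pow_right₀ (by norm_num) hk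
  unfold wT
  split_ifs
  · refine ⟨by positivity, ?_⟩
    rw [div_le_div_iff₀ (by positivity) (by norm_num)]
    linarith
  · refine ⟨by positivity, ?_⟩
    rw [div_le_div_iff₀ (by positivity) (by norm_num)]
    linarith

/-- the coefficients -/
noncomputable def cT (cls : J → Fin 4) (k : ℕ) (i : LabT cls k) (q : Pat) (e : ZMod 2) : ℝ :=
  wT cls k i * ∏ a, ((sn (dg (cls i.1.1) (zb q) e (i.1.2.1 a) (i.1.2.2 a)) : ℤ) : ℝ)

lemma cT_abs (cls : J → Fin 4) {k : ℕ} (hk : 1 ≤ k) (i : LabT cls k) (q : Pat) (e : ZMod 2) :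
    |cT cls k i q e| = wT cls k i := by
  unfold cT
  rw [abs_mul, abs_of_pos (wT_pos cls hk i).1, abs_prod,
    prod_congr rfl fun a _ => sn_abs _, prod_const_one, mul_one]

/-- the sum of the expansions of `TK` -/
theorem majT (hBW : StBW) (hFr : StFree) (hEx : S_EXD) (hCT : S_CTD) {W : J → Pat → ℕ → ℝ}
    {cls : J → Fin 4} {μ : Fin 3 → J → ℝ} (hW : WHyp W cls μ) (hWS : WSym W cls)
    (k : ℕ) (hk : 1 ≤ k) :
    ∃ z0 : ℕ, ∀ z, z0 ≤ z → ∃ C : ℝ, ∀ y, z < y →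
      ∑ s ∈ Tup J z y, avE W (fun E => TK k (mc cls s) E) s ≤
        C * (Real.log y) ^ (Fintype.card J) := by
  classical
  have hW' := hW
  obtain ⟨G, zb, hW1, hW2, hW3, hW4⟩ := hW'
  obtain ⟨z0, hz0⟩ := genC hBW hFr hW (ι := LabT cls k) (fun i => i.1.1) (cT cls k)
    (wT cls k) (wT_pos cls hk) (fun i q e => by
      rw [cT_abs cls hk]
      have := (wT_pos cls hk i).2
      linarith) ⟨zb, fun z hz i => by
      obtain ⟨C, hC⟩ := hW2 z hz i.1.1
      refine ⟨wT cls k i * C, fun y hy => ?_⟩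
      have h1 := (wT_pos cls hk i).1
      calc ∑ p ∈ PS z y, |bC W (fun i : LabT cls k => i.1.1) (cT cls k) i p| ≤
            ∑ p ∈ PS z y, wT cls k i * ∑ π, W i.1.1 π p := by
            refine sum_le_sum fun p hp => ?_
            unfold bC
            rw [mul_sum]
            refine (abs_sum_le_sum_abs _ _).trans (sum_le_sum fun q _ => ?_)
            rw [abs_mul, cT_abs cls hk, abs_of_nonneg
              ((hW1 z hz p (PSm hp).1 (PSm hp).2 i.1.1).1 q)]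
        _ = wT cls k i * ∑ p ∈ PS z y, ∑ π, W i.1.1 π p := (mul_sum _ _ _).symm
        _ ≤ wT cls k i * (Real.log (Real.log y) + C) :=
            mul_le_mul_of_nonneg_left (hC y hy) h1.le
        _ = _ := by ring⟩
    (LT cls k) (fun i => by
      unfold LT
      rw [i.2.2.2]
      simp) (QT cls k) ((Fintype.card J : ℕ) : ℝ)
    (Nat.cast_nonneg _) (fun U S hUS hU hQ => hCT J cls k U S hUS hU hQ)
  refine ⟨z0 + 2, fun z hz => ?_⟩
  obtain ⟨C, hC⟩ := hz0 z (by omega)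
  refine ⟨C, fun y hy => ?_⟩
  rw [hEx J cls W k z y (by omega) hWS]
  refine (le_trans (le_of_eq ?_) (le_abs_self _)).trans ((hC y hy).trans (le_of_eq ?_))
  · refine sum_congr rfl fun d _ => ?_
    congr 1
    refine prod_congr rfl fun i _ => ?_
    congr 1
    funext p
    unfold bT bC cT
    rw [mul_sum]
    exact sum_congr rfl fun q _ => by ring
  · rw [Real.rpow_natCast]

/-- **the average of the majorant** -/
theorem avgF (hBW : StBW) (hFr : StFree) (hT : S_EXD) (hF : S_EFD) (hCT : S_CTD) (hCF : S_CFD)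
    (hLA : S_LAD) {W : J → Pat → ℕ → ℝ} {cls : J → Fin 4} {μ : Fin 3 → J → ℝ}
    (hW : WHyp W cls μ) (hWS : WSym W cls) (hμ : ∀ c j, 0 < μ c j ∧ μ c j ≤ 1) (k : ℕ)
    (hk : 1 ≤ k) (G : Finset (Fin 3))
    (hG : ∀ c ∈ G, 2 ^ k * ∑ j ∈ univ.filter (fun j => cls j = c.castSucc), μ c j ≤
        ((univ.filter (fun j => cls j ≠ c.castSucc ∧ cls j ≠ 3)).card : ℝ) +
          ∑ j ∈ univ.filter (fun j => cls j = 3), (1 - μ c j)) :
    ∃ z0 : ℕ, ∀ z, z0 ≤ z → ∃ C : ℝ, ∀ y, z < y →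
      ∑ s ∈ Tup J z y, avE W (fun E => gF G (mc cls s) E ^ k) s ≤
        C * (Real.log y) ^ (Fintype.card J) := by
  classical
  obtain ⟨zt, ht⟩ := majT hBW hFr hT hCT hW hWS k hk
  obtain ⟨zo, ho⟩ := majF hBW hFr hF hCF hW hWS hμ 0 false 0 0 0 (Or.inl ⟨rfl, rfl, rfl⟩)
  choose z1 h1 using fun c : Fin 3 =>
    majF hBW hFr hF hCF hW hWS hμ c false 0 k k (Or.inl ⟨rfl, rfl, rfl⟩)
  choose z2 h2 using fun c : Fin 3 =>
    majF hBW hFr hF hCF hW hWS hμ c true k 0 k (Or.inr (Or.inl ⟨rfl, rfl, rfl⟩))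
  have h3 : ∀ c : Fin 3, ∃ z3 : ℕ, c ∈ G → ∀ z, z3 ≤ z → ∃ C : ℝ, ∀ y, z < y →
      ∑ s ∈ Tup J z y, avE W (fun E => FK true 0 k k (mc cls s) E c) s ≤
        C * (Real.log y) ^ (Fintype.card J) := by
    intro c
    by_cases hc : c ∈ G
    · obtain ⟨z3, h3⟩ := majF hBW hFr hF hCF hW hWS hμ c true 0 k k
        (Or.inr (Or.inr ⟨rfl, rfl, rfl, hk, hG c hc⟩))
      exact ⟨z3, fun _ => h3⟩
    · exact ⟨0, fun h => absurd h hc⟩
  choose z3 h3 using h3
  obtain ⟨Gb, zb, hW1, _, _, _⟩ := hW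
  refine ⟨zt + zo + ∑ c, z1 c + ∑ c, z2 c + ∑ c, z3 c + zb + 2, fun z hz => ?_⟩
  have hz1 : ∀ c, z1 c ≤ z := fun c => (le_sum_nat z1 c).trans (by omega)
  have hz2 : ∀ c, z2 c ≤ z := fun c => (le_sum_nat z2 c).trans (by omega)
  have hz3 : ∀ c, z3 c ≤ z := fun c => (le_sum_nat z3 c).trans (by omega)
  obtain ⟨Ct, hCt⟩ := ht z (by omega)
  obtain ⟨Co, hCo⟩ := ho z (by omega)
  choose C1 hC1 using fun c => h1 c z (hz1 c)
  choose C2 hC2 using fun c => h2 c z (hz2 c)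
  have h3' : ∀ c : Fin 3, ∃ C : ℝ, c ∈ G → ∀ y, z < y →
      ∑ s ∈ Tup J z y, avE W (fun E => FK true 0 k k (mc cls s) E c) s ≤
        C * (Real.log y) ^ (Fintype.card J) := by
    intro c
    by_cases hc : c ∈ G
    · obtain ⟨C, hC⟩ := h3 c hc z (hz3 c)
      exact ⟨C, fun _ => hC⟩
    · exact ⟨0, fun h => absurd h hc⟩
  choose C3 hC3 using h3'
  set M : ℝ := 4 ^ ((k + 2) ^ 2) with hM
  have hM0 : 0 ≤ M := by positivity
  refine ⟨M * (Co + Ct + ∑ c ∈ G, C3 c +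
    ∑ c ∈ univ.filter (fun c => c ∉ G), (C1 c + C2 c)), fun y hy => ?_⟩
  have hAB : ∀ p : ℕ, p.Prime → z < p → ∀ j π, 0 ≤ W j π p := fun p hp hzp j π =>
    (hW1 z (by omega) p hp hzp j).1 π
  have h4 : ∀ s ∈ Tup J z y, avE W (fun E => gF G (mc cls s) E ^ k) s ≤
      M * (avE W (fun E => FK false 0 0 0 (mc cls s) E 0) s +
        avE W (fun E => TK k (mc cls s) E) s +
        ∑ c ∈ G, avE W (fun E => FK true 0 k k (mc cls s) E c) s +
        ∑ c ∈ univ.filter (fun c => c ∉ G), (avE W (fun E => FK false 0 k k (mc cls s) E c) s +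
          avE W (fun E => FK true k 0 k (mc cls s) E c) s)) := by
    intro s hs
    have hok : Ok (mc cls s) := by
      have h5 : Mt (mc cls s) = ∏ j, s j := by
        unfold Mt mc
        exact prod_fiberwise univ cls s
      unfold Ok
      rw [h5]
      refine ⟨?_, Pool.Agent.L7h19.IS.tup_sqf hs⟩
      rw [← Nat.not_even_iff_odd, even_iff_two_dvd]
      intro h6
      have h7 : (2 : ℕ).Prime := Nat.prime_two
      obtain ⟨j, _, hj⟩ := (h7.prime.dvd_finsetProd_iff _).1 h6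
      have h8 := (dv_prime ((AT.mem_Tup'.1 hs).1 j) h7 hj).1
      omega
    have hone : ∀ E, FK false 0 0 0 (mc cls s) E 0 = 1 := by
      intro E
      unfold FK
      simp only [zero_mul, pow_zero, mul_one, div_one]
      rw [Fintype.piFinset_of_isEmpty, Fintype.piFinset_of_isEmpty]
      simp only [univ_unique, sum_singleton, univ_eq_empty, prod_empty]
      rw [if_pos]
      intro y hy
      exact absurd (Subsingleton.elim y 0) hy
    have h5 : avE W (fun E => gF G (mc cls s) E ^ k) s ≤ avE W (fun E =>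
        M * (((FK false 0 0 0 (mc cls s) E 0 + TK k (mc cls s) E) +
          ∑ c ∈ G, FK true 0 k k (mc cls s) E c) +
          ∑ c ∈ univ.filter (fun c => c ∉ G), (FK false 0 k k (mc cls s) E c +
            FK true k 0 k (mc cls s) E c))) s := by
      refine avE_mono hAB hs fun E => ?_
      rw [hone E]
      exact (hLA k (mc cls s) E G hok).2.2
    refine h5.trans (le_of_eq ?_)
    rw [avE_smul, avE_add, avE_add, avE_add, avE_sum, avE_sum]
    congr 2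
    exact sum_congr rfl fun c _ => avE_add _ _ _ _
  refine (sum_le_sum h4).trans ?_
  rw [← mul_sum, mul_assoc]
  refine mul_le_mul_of_nonneg_left ?_ hM0
  rw [sum_add_distrib, sum_add_distrib, sum_add_distrib, sum_comm, add_mul, add_mul, add_mul,
    sum_mul, sum_mul]
  refine add_le_add (add_le_add (add_le_add (hCo y hy) (hCt y hy)) (sum_le_sum fun c hc =>
    hC3 c hc y hy)) ?_
  rw [sum_comm]
  refine sum_le_sum fun c _ => ?_
  rw [sum_add_distrib, add_mul]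
  exact add_le_add (hC1 c y hy) (hC2 c y hy)

end Pool.Agent.L7h19.FD
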