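import Mathlib
import Pool.Agent.L7h19.FD.Fin
import Pool.Agent.L7h19.FD.Maj
import Pool.Agent.L7h19.IK.All
import Pool.Agent.W571.RT.Rank2

/-!
# Project FD: the moments of the rank, abstract form
-/

set_option autoImplicit false
set_option linter.unusedSectionVars false

namespace Pool.Agent.L7h19.FD

open Finset Polynomial Pool.Agent.W262.RK Pool.Agent.W307.RT Pool.Agent.L7h19.RP
open Pool.Agent.L7h19.IS Pool.Agent.L7h19.IT
open Pool.Agent.L7h19.RH (Q0)

variable {J : Type} [Fintype J] [DecidableEq J]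

/-- all parts -/
structure Parts : Prop where
  rk : S_RKD
  gf : S_GFD
  gr : S_GRD
  crt : S_CRD
  ext : S_EXD
  exf : S_EFD
  ct : S_CTD
  cf : S_CFD
  la : S_LAD
  wh : S_WHD
  bw : StBW
  fr : StFree

lemma gF_nonneg (G : Finset (Fin 3)) (m : Fin 4 → ℕ) (E : Fin 3 → Finset ℕ) : 0 ≤ gF G m E := by
  unfold gF
  positivity

lemma WP_sym (cls : J → Fin 4) (f : J → ℤ[X]) (κ : J → Fin 3 → ℤ[X]) (c : ℕ) :
    WSym (WP cls f κ c) cls := by
  classical
  intro j hj π p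
  unfold WP
  simp only [if_pos hj]
  congr 1
  refine sum_congr rfl fun ν _ => ?_
  have h1 : (∀ i, ((!(π i)) = true ↔ jacobiSym ((κ j i).eval (ν : ℤ)) p = -1)) ↔
      ∀ i, (π i = true ↔ ¬ jacobiSym ((κ j i).eval (ν : ℤ)) p = -1) := by
    refine forall_congr' fun i => ?_
    cases π i <;> simp
  have h2 : (∀ i, ((!(π i)) = true ↔ ¬ jacobiSym ((κ j i).eval (ν : ℤ)) p = -1)) ↔
      ∀ i, (π i = true ↔ jacobiSym ((κ j i).eval (ν : ℤ)) p = -1) := by
    refine forall_congr' fun i => ?_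
    cases π i <;> simp
  rw [if_congr h1 rfl rfl, if_congr h2 rfl rfl, add_comm]

lemma muD_pos (cls : J → Fin 4) (f : J → ℤ[X]) (κ : J → Fin 3 → ℤ[X]) (c : Fin 3) (j : J) :
    0 < muD cls f κ c j ∧ muD cls f κ c j ≤ 1 := by
  unfold muD
  split_ifs
  · exact Pool.Agent.L7h19.FT.mu_pos _ _
  · exact Pool.Agent.L7h19.FT.mu_pos _ _

theorem absF (hP : Parts) (k : ℕ) (hk : 1 ≤ k) (cls : J → Fin 4) (a : Fin 4 → ℤ)
    (G : Finset (Fin 3)) (f : J → ℤ[X]) (κ : J → Fin 3 → ℤ[X]) (D A B : ℤ[X])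
    (hf : ∀ j, Irreducible (f j)) (hd : ∀ j, 0 < (f j).natDegree)
    (hnd : ∀ j l, j ≠ l → ¬ f j ∣ f l) (ha : ∀ c, a c ≠ 0)
    (hA : ∀ t, A.eval t = Fv cls a (vf f t) 0) (hB : ∀ t, B.eval t = Fv cls a (vf f t) 1)
    (hAB : ∀ t, A.eval t - B.eval t = Fv cls a (vf f t) 2)
    (hD : ∀ t, D.eval t = Fv cls a (vf f t) 3)
    (hκ0 : ∀ j, cls j ≠ 3 → ∀ t,
      (κ j 0).eval t = kz (D.eval t) (A.eval t) (B.eval t) (cls j))
    (hκ3 : ∀ j, cls j = 3 → ∀ i t,
      F3 (D.eval t) (A.eval t) (B.eval t) i = (κ j i).eval t * (f j).eval t)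
    (hκ : ∀ j i, ¬ f j ∣ κ j i)
    (hG : ∀ c ∈ G, 2 ^ k * ∑ j ∈ univ.filter (fun j => cls j = c.castSucc), muD cls f κ c j ≤
        ((univ.filter (fun j => cls j ≠ c.castSucc ∧ cls j ≠ 3)).card : ℝ) +
          ∑ j ∈ univ.filter (fun j => cls j = 3), (1 - muD cls f κ c j)) (ε : ℝ) (hε : 0 < ε) :
    ∃ C : ℝ, 0 ≤ C ∧ ∀ (X : ℕ) (u v : ℤ), 1 ≤ X → u.natAbs ≤ X → v.natAbs ≤ X →
      (X : ℝ) ^ ε ≤ (v : ℝ) - u →
      ∑ t ∈ (Icc u v).filter (fun t : ℤ => ∀ j, vf f t j ≠ 0),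
        ((2 : ℝ) ^ ((Module.finrank ℤ
          (EAB (D.eval t * A.eval t) (D.eval t * B.eval t)).toAffine.Point : ℕ) -
          (ez G (D.eval t) (A.eval t) (B.eval t) : ℝ) : ℝ)) ^ k ≤ C * ((v : ℝ) - u) := by
  classical
  set Ψ : (J → ℕ) → (Fin 3 → Finset ℕ) → ℝ := fun s E => gF G (mc cls s) E ^ k with hΨd
  set g : ℝ := 64 ^ k with hg
  have hg1 : 1 ≤ g := one_le_pow₀ (by norm_num)
  set E : ℤ → ℝ := fun t => (Module.finrank ℤ
          (EAB (D.eval t * A.eval t) (D.eval t * B.eval t)).toAffine.Point : ℕ) -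
          (ez G (D.eval t) (A.eval t) (B.eval t) : ℝ) with hE
  set R : ℤ → ℝ := fun t => if ∀ j, vf f t j ≠ 0 then ((2 : ℝ) ^ (E t)) ^ k else 0 with hRd
  have hR0 : ∀ t, 0 ≤ R t := fun t => by
    rw [hRd]
    dsimp only
    split_ifs
    · exact pow_nonneg (Real.rpow_nonneg (by norm_num) _) _
    · exact le_rfl
  have hΨ0 : ∀ s E, 0 ≤ Ψ s E := fun s E => pow_nonneg (gF_nonneg _ _ _) _
  have hΨ : ∀ (z y : ℕ) (s e : J → ℕ) (E : Fin 3 → Finset ℕ), 2 ≤ z →
      (fun j => s j * e j) ∈ Tup J z y →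
      Ψ s E = Ψ s (fun i => E i ∩ Q0 s) ∧
      Ψ (fun j => s j * e j) E ≤ g ^ (∑ j, (e j).primeFactors.card) * Ψ s E := by
    intro z y s e E hz hse
    obtain ⟨h1, h2⟩ := hP.gf J cls G z y s e E hz hse
    refine ⟨by rw [hΨd]; dsimp only; rw [← h1], ?_⟩
    rw [hΨd]
    dsimp only
    calc gF G (mc cls (fun j => s j * e j)) E ^ k ≤
          (16 ^ (∑ j, (e j).primeFactors.card) * gF G (mc cls s) E) ^ k :=
          pow_le_pow_left₀ (gF_nonneg _ _ _) h2 k
      _ = (16 ^ k) ^ (∑ j, (e j).primeFactors.card) * gF G (mc cls s) E ^ k := by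
          rw [mul_pow, ← pow_mul, ← pow_mul, mul_comm k]
      _ ≤ _ := by
          refine mul_le_mul_of_nonneg_right (pow_le_pow_left₀ (by positivity) ?_ _)
            (pow_nonneg (gF_nonneg _ _ _) _)
          exact pow_le_pow_left₀ (by norm_num) (by norm_num) k
  choose Bn hBn using fun (j : J) (i : Fin 3) => large_nd (hf j) (hd j) (hκ j i)
  have hRB : RBF g cls κ f Ψ R := by
    refine ⟨∑ c, (a c).natAbs + ∑ j, ∑ i, Bn j i + 2, fun z hz t y X k' d hGd hx hX hy hk' => ?_⟩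
    have h1 : R t = ((2 : ℝ) ^ (E t)) ^ k := if_pos hGd.1
    rw [h1]
    have hp : ∀ p : ℕ, p.Prime → z < p → ∀ c, ¬ (p : ℤ) ∣ a c := by
      intro p _ hzp c h2
      have h3 := Nat.le_of_dvd (Int.natAbs_pos.2 (ha c)) (Int.natCast_dvd.1 h2)
      have h4 := le_sum_nat (fun c => (a c).natAbs) c
      have h5 : (a c).natAbs ≤ ∑ c, (a c).natAbs := h4
      omega
    have hS : S1 z y (vf f t) ∈ Tup J z y := Pool.Agent.W45.RT.S1_mem hGd
    have huniq : ∀ (p : ℕ), p.Prime → ∀ j j', p ∣ S1 z y (vf f t) j → p ∣ S1 z y (vf f t) j' →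
        j' = j := by
      intro p hp j j' hj hj'
      by_contra hne
      have h3 := (mem_Tup'.1 hS).2 j' j hne
      have h4 : p ∣ 1 := by
        rw [← Nat.Coprime.gcd_eq_one h3]
        exact Nat.dvd_gcd hj' hj
      exact hp.one_lt.ne' (Nat.dvd_one.1 h4)
    have hQ0 : ∀ (p : ℕ), p.Prime → ∀ j, p ∣ S1 z y (vf f t) j → p ∈ Q0 (S1 z y (vf f t)) := by
      intro p hp j hpj
      unfold Q0
      rw [Nat.mem_primeFactors]
      exact ⟨hp, hpj.trans (dvd_prod_of_mem _ (mem_univ j)),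
        prod_ne_zero_iff.2 fun j _ => (Tup_pos hS j).ne'⟩
    set N := negP cls f (fun _ => 1) t (S1 z y (vf f t)) with hN
    have hmN : ∀ (p : ℕ), p.Prime → ∀ j, p ∣ S1 z y (vf f t) j → cls j = 3 →
        (p ∈ N ↔ jacobiSym ((f j).eval t / p) p = -1) := by
      intro p hp j hpj hj
      rw [hN]
      unfold negP
      rw [mem_filter]
      constructor
      · rintro ⟨_, j', _, hj', h⟩
        rw [huniq p hp j j' hpj hj', eval_one, one_mul] at h
        exact h
      · intro h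
        refine ⟨?_, j, hj, hpj, by rw [eval_one, one_mul]; exact h⟩
        unfold P3
        rw [Nat.mem_primeFactors]
        exact ⟨hp, hpj.trans (dvd_prod_of_mem _ (mem_filter.2 ⟨mem_univ j, hj⟩)),
          prod_ne_zero_iff.2 fun j _ => (Tup_pos hS j).ne'⟩
    have hE' : ∀ j (p : ℕ), p.Prime → p ∣ S1 z y (vf f t) j →
        (cls j ≠ 3 → (p ∈ nF cls κ (S1 z y (vf f t)) t N 0 ↔
          jacobiSym (kz (D.eval t) (A.eval t) (B.eval t) (cls j)) p = -1)) ∧
        (cls j = 3 → ∀ i, (p ∈ nF cls κ (S1 z y (vf f t)) t N i ↔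
          jacobiSym (F3 (D.eval t) (A.eval t) (B.eval t) i / p) p = -1)) := by
      intro j p hp hpj
      refine ⟨fun hj => ?_, fun hj i => ?_⟩
      · rw [← hκ0 j hj t]
        unfold nF
        rw [mem_filter]
        constructor
        · rintro ⟨_, j', hj', h⟩
          rw [huniq p hp j j' hpj hj'] at h
          rcases h with h | h
          · exact h.2.2
          · exact absurd h.1 hj
        · intro h
          exact ⟨hQ0 p hp j hpj, j, hpj, Or.inl ⟨hj, rfl, h⟩⟩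
      · have hmem : p ∈ nF cls κ (S1 z y (vf f t)) t N i ↔
            (jacobiSym ((κ j i).eval t) p = -1 ↔ p ∉ N) := by
          unfold nF
          rw [mem_filter]
          constructor
          · rintro ⟨_, j', hj', h⟩
            rw [huniq p hp j j' hpj hj'] at h
            rcases h with h | h
            · exact absurd hj h.1
            · exact h.2
          · intro h
            exact ⟨hQ0 p hp j hpj, j, hpj, Or.inr ⟨hj, h⟩⟩
        rw [hmem, hmN p hp j hpj hj, hκ3 j hj i t]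
        have hS1 := (Pool.Agent.W571.RT.S1_dvd_iff hp).1 hpj
        have hzp := (mem_PS.1 hS1.1).1.1
        have hd1 : (p : ℤ) ∣ (f j).eval t := hS1.2.1
        have hd2 : ¬ (p : ℤ) ^ 2 ∣ (f j).eval t := hS1.2.2
        rw [Int.mul_ediv_assoc _ hd1, jacobiSym.mul_left]
        have hk1 : ¬ (p : ℤ) ∣ (κ j i).eval t := by
          have e1 : Bn j i ≤ ∑ i, Bn j i := le_sum_nat (fun i => Bn j i) i
          have e2 : ∑ i, Bn j i ≤ ∑ j, ∑ i, Bn j i := le_sum_nat (fun j => ∑ i, Bn j i) j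
          exact hBn j i p (by omega) t hd1
        have hk2 : ¬ (p : ℤ) ∣ (f j).eval t / p := by
          rintro ⟨q, hq⟩
          apply hd2
          refine ⟨q, ?_⟩
          rw [← Int.mul_ediv_cancel' hd1, hq]
          ring
        haveI : Fact p.Prime := ⟨hp⟩
        have hpm : ∀ x : ℤ, ¬ (p : ℤ) ∣ x → jacobiSym x p = 1 ∨ jacobiSym x p = -1 := by
          intro x hx
          have hg : Int.gcd x p = 1 := by
            have h5 : IsCoprime (p : ℤ) x := (Int.isCoprime_iff_gcd_eq_one.2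
              (by
                rw [Int.gcd_comm]
                have := (Nat.coprime_primes hp hp)
                have h6 : Nat.Coprime p x.natAbs := (Nat.Prime.coprime_iff_not_dvd hp).2
                  (fun h7 => hx (Int.natCast_dvd.2 h7))
                have h7 : Int.gcd x p = Nat.gcd x.natAbs p := rfl
                rw [h7, Nat.gcd_comm]
                exact h6))
            exact Int.isCoprime_iff_gcd_eq_one.1 h5.symm
          exact jacobiSym.eq_one_or_neg_one hg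
        rcases hpm _ hk1 with h5 | h5 <;> rcases hpm _ hk2 with h6 | h6 <;>
          · rw [h5, h6]
            norm_num
    have h3 := hP.rk J cls a G (vf f t) (D.eval t) (A.eval t) (B.eval t) z y X k' d
      (nF cls κ (S1 z y (vf f t)) t N) (by omega) hGd ha hp (hA t) (hB t) (hAB t) (hD t)
      hx hX hy hk' hE'
    have h6 := pow_le_pow_left₀ (Real.rpow_nonneg (by norm_num) _) h3 k
    refine h6.trans (le_of_eq ?_)
    exact Pool.Agent.L7h19.IK.pow_aux _ _ _ _ _ _ _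
  have hMaj : ∀ c : ℕ, ∃ z0 : ℕ, ∀ z, z0 ≤ z → ∃ C : ℝ, ∀ y, z < y →
      ∑ s ∈ Tup J z y, RSum cls f κ Ψ s * ∏ j, gw 1 c (s j) ≤
        C * (Real.log y) ^ (Fintype.card J) := by
    intro c
    obtain ⟨z0, h0⟩ := avgF hP.bw hP.fr hP.ext hP.exf hP.ct hP.cf hP.la
      (hP.wh J cls f κ c hf hd hκ) (WP_sym cls f κ c) (muD_pos cls f κ) k hk G hG
    refine ⟨z0 + c + 2, fun z hz => ?_⟩
    obtain ⟨C, hC⟩ := h0 z (by omega)
    refine ⟨C, fun y hy => ?_⟩
    refine le_trans (le_of_eq ?_) (hC y hy)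
    refine sum_congr rfl fun s hs => ?_
    exact hP.crt J cls f κ c z y (by omega) (by omega) s hs Ψ
  obtain ⟨C, hC0, hC⟩ := finF hP.gr hg1 cls κ f Ψ R hf hd hnd hΨ0 hΨ hR0 hRB hMaj ε hε
  refine ⟨C, hC0, fun X u v hX hu hv huv => ?_⟩
  refine le_trans (le_of_eq ?_) (hC X u v hX hu hv huv)
  refine sum_congr rfl fun t ht => ?_
  exact (if_pos (mem_filter.1 ht).2).symm

end Pool.Agent.L7h19.FD
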