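import Mathlib
import Pool.Agent.L7h19.FD.Abs
import Pool.Agent.L7h19.FT.Parts
import Pool.Agent.L7h89.FD.Rkd
import Pool.Agent.L7h89.FD.Gfd
import Pool.Agent.L7h50.FD.Grd
import Pool.Agent.L7h46.FD.Crd
import Pool.Agent.L7h56.FD.Exd
import Pool.Agent.L7h60.FD.Exf
import Pool.Agent.L7h29.FD.Ctd
import Pool.Agent.L7h89.FD.Cfd
import Pool.Agent.L7h65.FD.Lad
import Pool.Agent.L7h50.FD.Whd
import Pool.Agent.L7h50.FD.Dzd
import Pool.Agent.L7h46.FT.Tkv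

/-!
# Project FD: all parts
-/

set_option autoImplicit false

namespace Pool.Agent.L7h19.FD

theorem parts : Parts where
  rk := Pool.Agent.L7h89.FD.s_RKD
  gf := Pool.Agent.L7h89.FD.s_GFD
  gr := Pool.Agent.L7h50.FD.s_GRD
  crt := Pool.Agent.L7h46.FD.s_CRD
  ext := Pool.Agent.L7h56.FD.s_EXD
  exf := Pool.Agent.L7h60.FD.s_EFD
  ct := Pool.Agent.L7h29.FD.s_CTD
  cf := Pool.Agent.L7h89.FD.s_CFD
  la := Pool.Agent.L7h65.FD.s_LAD
  wh := Pool.Agent.L7h50.FD.s_WHD Pool.Agent.L7h50.UP.s_UP2 Pool.Agent.L7h50.UP.s_UP02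
    Pool.Agent.L7h78.FT.s_SQ
  bw := Pool.Agent.L7h19.RP.parts.bw
  fr := Pool.Agent.L7h23.RP.stFree

/-- the second moment of the number of the split primes -/
theorem tkv0 : Pool.Agent.L7h19.FT.S_TKV :=
  Pool.Agent.L7h46.FT.s_TKV Pool.Agent.L7h50.UP.s_UP02 Pool.Agent.L7h78.FT.s_SQ

/-- the sum over the factors -/
theorem dzd0 : S_DZD := Pool.Agent.L7h50.FD.s_DZD

end Pool.Agent.L7h19.FD
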