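import Mathlib
import Pool.Agent.L7h19.FD.Abs
import Pool.Agent.L7h19.IT.All3

/-!
# Project FD: the irreducible factors of `A`, `B`, `A - B`, `D`
-/

set_option autoImplicit false
set_option linter.unusedSectionVars false

namespace Pool.Agent.L7h19.FD

open Finset Polynomial Pool.Agent.W262.RK Pool.Agent.W307.RT Pool.Agent.L7h19.RP
open Pool.Agent.L7h19.IS Pool.Agent.L7h19.IT
open Pool.Agent.L7h19.RH (Q0)
open Pool.Agent.L7h19.FT (mu Sqr)

/-- `A`, `B`, `A - B`, `D` -/
noncomputable def Fp (D A B : ℤ[X]) : Fin 4 → ℤ[X] := ![A, B, A - B, D]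

/-- the irreducible factors with their classes -/
abbrev JF (D A B : ℤ[X]) : Type := Σ c : Fin 4, {f : ℤ[X] // f ∈ SF (Fp D A B c)}

/-- the class -/
def clF {D A B : ℤ[X]} (j : JF D A B) : Fin 4 := j.1

/-- the polynomial -/
def poF {D A B : ℤ[X]} (j : JF D A B) : ℤ[X] := j.2.1

/-- the polynomial whose values decide the splitting, for the class `c ≠ 3` -/
noncomputable def kzP (D A B : ℤ[X]) (c : Fin 4) : ℤ[X] :=
  if c = 0 then -(D * B) else if c = 1 then -(D * A) else D * A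

/-- the polynomial whose values decide `dg … (dc c) (dc c)` for the class `3` -/
noncomputable def kdP (A B : ℤ[X]) (c : Fin 3) : ℤ[X] :=
  if c = 0 then -(B * (A - B)) else if c = 1 then A * (A - B) else A * B

variable {D A B : ℤ[X]}

lemma kzP_eval (D A B : ℤ[X]) (c : Fin 4) (t : ℤ) :
    (kzP D A B c).eval t = kz (D.eval t) (A.eval t) (B.eval t) c := by
  unfold kzP kz
  split_ifs <;> simp

lemma kdP_eval (A B : ℤ[X]) (c : Fin 3) (t : ℤ) :
    (kdP A B c).eval t = kd (A.eval t) (B.eval t) c := by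
  unfold kdP kd
  split_ifs <;> simp

lemma poF_mem (j : JF D A B) : poF j ∈ SF (Fp D A B (clF j)) := j.2.2

lemma sumJ (c : Fin 4) {M : Type} [AddCommMonoid M] (G : ℤ[X] → M) :
    ∑ j ∈ univ.filter (fun j : JF D A B => clF j = c), G (poF j) = ∑ f ∈ SF (Fp D A B c), G f := by
  classical
  refine sum_bij (fun j _ => poF j) (fun j hj => ?_) (fun j hj l hl hjl => ?_)
    (fun f hf => ?_) (fun _ _ => rfl)
  · have h := poF_mem j
    rwa [(mem_filter.1 hj).2] at h
  · have h1 := (mem_filter.1 hj).2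
    have h2 := (mem_filter.1 hl).2
    obtain ⟨cj, fj⟩ := j
    obtain ⟨cl, fl⟩ := l
    have h3 : cj = cl := h1.trans h2.symm
    subst h3
    congr 1
    exact Subtype.ext hjl
  · exact ⟨⟨c, ⟨f, hf⟩⟩, mem_filter.2 ⟨mem_univ _, rfl⟩, rfl⟩

lemma prodJ (c : Fin 4) {M : Type} [CommMonoid M] (G : ℤ[X] → M) :
    ∏ j ∈ univ.filter (fun j : JF D A B => clF j = c), G (poF j) = ∏ f ∈ SF (Fp D A B c), G f := by
  have h := sumJ (D := D) (A := A) (B := B) c (M := Additive M) (fun f => Additive.ofMul (G f))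
  exact h

lemma Fp_mul_dvd {c c' : Fin 4} (h : c ≠ c') :
    Fp D A B c * Fp D A B c' ∣ D * A * B * (A - B) := by
  fin_cases c <;> fin_cases c' <;>
    simp only [Fp, Fin.zero_eta, Fin.mk_one, Fin.reduceFinMk, Matrix.cons_val_zero,
      Matrix.cons_val_one, Matrix.cons_val, ne_eq, not_true_eq_false] at h ⊢
  · exact ⟨D * (A - B), by ring⟩
  · exact ⟨D * B, by ring⟩
  · exact ⟨B * (A - B), by ring⟩
  · exact ⟨D * (A - B), by ring⟩
  · exact ⟨D * A, by ring⟩
  · exact ⟨A * (A - B), by ring⟩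
  · exact ⟨D * B, by ring⟩
  · exact ⟨D * A, by ring⟩
  · exact ⟨A * B, by ring⟩
  · exact ⟨B * (A - B), by ring⟩
  · exact ⟨A * (A - B), by ring⟩
  · exact ⟨A * B, by ring⟩

lemma Fp_sqf (hsq : Squarefree (mq (D * A * B * (A - B)))) (c : Fin 4) :
    Squarefree (mq (Fp D A B c)) := by
  have h1 : ∃ c', c ≠ c' := ⟨c + 1, by fin_cases c <;> decide⟩
  obtain ⟨c', hc'⟩ := h1
  refine hsq.squarefree_of_dvd ?_
  exact Polynomial.map_dvd _ ((Dvd.intro _ rfl).trans (Fp_mul_dvd hc'))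

lemma not_both (hsq : Squarefree (mq (D * A * B * (A - B)))) {c c' : Fin 4} (h : c ≠ c')
    {f : ℤ[X]} (hd : 0 < f.natDegree) (h1 : f ∣ Fp D A B c) : ¬ f ∣ Fp D A B c' := fun h2 =>
  mq_sq_dvd ((mul_dvd_mul h1 h2).trans (Fp_mul_dvd h)) hsq hd

/-- the cofactor `D / f` -/
noncomputable def cof (δ : ℤ) (D f : ℤ[X]) : ℤ[X] := by
  classical
  exact C δ * ∏ g ∈ (SF D).erase f, g

lemma cof_mul {δ : ℤ} (hδ : D = C δ * ∏ g ∈ SF D, g) {f : ℤ[X]} (hf : f ∈ SF D) :
    cof δ D f * f = D := by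
  classical
  conv_rhs => rw [hδ]
  unfold cof
  rw [mul_assoc, prod_erase_mul _ _ hf]

/-- the constants -/
noncomputable def kaF (δ : ℤ) (D A B : ℤ[X]) (j : JF D A B) (i : Fin 3) : ℤ[X] :=
  if clF j = 3 then cof δ D (poF j) * Fp D A B i.castSucc else kzP D A B (clF j)

lemma kaF_nd (hsq : Squarefree (mq (D * A * B * (A - B)))) {δ : ℤ}
    (hδ : D = C δ * ∏ g ∈ SF D, g) (j : JF D A B) (i : Fin 3) : ¬ poF j ∣ kaF δ D A B j i := by
  have hj := SF_irr (poF_mem j)
  intro h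
  unfold kaF at h
  split_ifs at h with h3
  · have hmem : poF j ∈ SF D := by
      have := poF_mem j
      rw [h3] at this
      exact this
    have h1 : poF j * poF j ∣ Fp D A B 3 * Fp D A B i.castSucc := by
      have h2 : Fp D A B 3 = poF j * cof δ D (poF j) := by
        rw [mul_comm]
        exact (cof_mul hδ hmem).symm
      rw [h2, mul_assoc]
      exact mul_dvd_mul_left _ h
    exact mq_sq_dvd (h1.trans (Fp_mul_dvd (by
      intro h4
      exact absurd h4 (by fin_cases i <;> decide)))) hsq hj.2.1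
  · have h1 : poF j * poF j ∣ Fp D A B (clF j) * kzP D A B (clF j) := mul_dvd_mul hj.2.2 h
    have h2 : Fp D A B (clF j) * kzP D A B (clF j) ∣ D * A * B * (A - B) := by
      have hc : ∀ c : Fin 4, c ≠ 3 → Fp D A B c * kzP D A B c ∣ D * A * B * (A - B) := by
        intro c hc
        fin_cases c
        · exact ⟨-(A - B), by simp [Fp, kzP]; ring⟩
        · exact ⟨-(A - B), by simp [Fp, kzP]; ring⟩
        · exact ⟨B, by simp [Fp, kzP]; ring⟩
        · exact absurd rfl hc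
      exact hc _ h3
    exact mq_sq_dvd (h1.trans h2) hsq hj.2.1

/-- all the facts on the factors -/
theorem facts (hsq : Squarefree (mq (D * A * B * (A - B)))) :
    (∀ j : JF D A B, Irreducible (poF j)) ∧ (∀ j : JF D A B, 0 < (poF j).natDegree) ∧
    (∀ j l : JF D A B, j ≠ l → ¬ poF j ∣ poF l) ∧ ∃ a : Fin 4 → ℤ, (∀ c, a c ≠ 0) ∧
      (∀ c t, Fv (clF (D := D) (A := A) (B := B)) a (vf poF t) c = (Fp D A B c).eval t) ∧
      D = C (a 3) * ∏ g ∈ SF D, g := by
  classical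
  refine ⟨fun j => (SF_irr (poF_mem j)).1, fun j => (SF_irr (poF_mem j)).2.1, ?_, ?_⟩
  · intro j l hjl hdvd
    have hj := SF_irr (poF_mem j)
    have hl := SF_irr (poF_mem l)
    by_cases h : clF j = clF l
    · obtain ⟨cj, fj⟩ := j
      obtain ⟨cl, fl⟩ := l
      have h3 : cj = cl := h
      subst h3
      refine SF_nd fj.2 fl.2 (fun h4 => hjl ?_) hdvd
      congr 1
      exact Subtype.ext h4
    · exact not_both hsq h hj.2.1 hj.2.2 (hdvd.trans hl.2.2)
  · choose a ha0 ha using fun c => exists_fac (Fp_sqf hsq c)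
    refine ⟨a, ha0, fun c t => ?_, ha 3⟩
    unfold Fv
    have h1 := prodJ (D := D) (A := A) (B := B) c (fun f => f.eval t)
    have h2 : ∏ j ∈ univ.filter (fun j : JF D A B => clF j = c), vf poF t j =
        ∏ f ∈ SF (Fp D A B c), f.eval t := h1
    rw [h2]
    conv_rhs => rw [ha c]
    rw [eval_mul, eval_C, eval_prod]

lemma ne_iff {a : Fin 4 → ℤ} (ha : ∀ c, a c ≠ 0)
    (hF : ∀ c t, Fv (clF (D := D) (A := A) (B := B)) a (vf poF t) c = (Fp D A B c).eval t)
    (t : ℤ) : D.eval t * A.eval t * B.eval t * (A.eval t - B.eval t) ≠ 0 ↔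
      ∀ j : JF D A B, vf poF t j ≠ 0 := by
  have h1 : D.eval t * A.eval t * B.eval t * (A.eval t - B.eval t) ≠ 0 ↔
      ∀ c, (Fp D A B c).eval t ≠ 0 := by
    rw [Fin.forall_fin_succ, Fin.forall_fin_succ, Fin.forall_fin_succ, Fin.forall_fin_one]
    simp only [Fp, Matrix.cons_val_zero, Matrix.cons_val_succ, eval_sub, mul_ne_zero_iff]
    tauto
  rw [h1]
  constructor
  · intro h j
    have h2 := h (clF j)
    rw [← hF] at h2
    unfold Fv at h2
    exact prod_ne_zero_iff.1 (mul_ne_zero_iff.1 h2).2 j (mem_filter.2 ⟨mem_univ _, rfl⟩)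
  · intro h c
    rw [← hF]
    unfold Fv
    exact mul_ne_zero (ha c) (prod_ne_zero_iff.2 fun j _ => h j)

/-- squares modulo `f` -/
lemma Sqr_mul {f h κ : ℤ[X]} (hf : Irreducible f) (hd : 0 < f.natDegree) (hh : ¬ f ∣ h) :
    Sqr f (h ^ 2 * κ) ↔ Sqr f κ := by
  haveI : Fact (Irreducible (f.map (Int.castRingHom ℚ))) := ⟨mq_irr hf hd⟩
  set m := AdjoinRoot.mk (f.map (Int.castRingHom ℚ)) with hm
  have hne : m (h.map (Int.castRingHom ℚ)) ≠ 0 := by
    intro h0
    rw [hm, AdjoinRoot.mk_eq_zero] at h0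
    apply hh
    exact (Polynomial.IsPrimitive.Int.dvd_iff_map_cast_dvd_map_cast f h
      (hf.isPrimitive hd.ne')).2 h0
  unfold Sqr
  rw [Polynomial.map_mul, Polynomial.map_pow, map_mul, map_pow]
  constructor
  · rintro ⟨r, hr⟩
    refine ⟨r / m (h.map (Int.castRingHom ℚ)), ?_⟩
    have h1 : m (h.map (Int.castRingHom ℚ)) ^ 2 * m (κ.map (Int.castRingHom ℚ)) = r * r := hr
    field_simp
    rw [mul_comm, h1]
    ring
  · rintro ⟨r, hr⟩
    refine ⟨m (h.map (Int.castRingHom ℚ)) * r, ?_⟩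
    have h1 : m (κ.map (Int.castRingHom ℚ)) = r * r := hr
    have h2 : m (h.map (Int.castRingHom ℚ)) ^ 2 * m (κ.map (Int.castRingHom ℚ)) =
        m (h.map (Int.castRingHom ℚ)) * r * (m (h.map (Int.castRingHom ℚ)) * r) := by
      rw [h1]
      ring
    exact h2

lemma mu_mul {f h κ : ℤ[X]} (hf : Irreducible f) (hd : 0 < f.natDegree) (hh : ¬ f ∣ h) :
    mu f (h ^ 2 * κ) = mu f κ := by
  have h1 := Sqr_mul (κ := κ) hf hd hh
  unfold mu
  by_cases h2 : Sqr f κ
  · rw [if_pos h2, if_pos (h1.2 h2)]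
  · rw [if_neg h2, if_neg (fun h3 => h2 (h1.1 h3))]

lemma kc_kaF {δ : ℤ} {j : JF D A B} (h3 : clF j = 3) (c : Fin 3) :
    kc c (kaF δ D A B j) = cof δ D (poF j) ^ 2 * kdP A B c := by
  unfold kc kaF kdP
  fin_cases c
  · simp [h3, Fp]
    ring
  · simp [h3, Fp]
    ring
  · simp [h3, Fp]
    ring

lemma muD_three (hsq : Squarefree (mq (D * A * B * (A - B)))) {δ : ℤ}
    (hδ : D = C δ * ∏ g ∈ SF D, g) {j : JF D A B} (h3 : clF j = 3) (c : Fin 3) :
    muD clF poF (kaF δ D A B) c j = mu (poF j) (kdP A B c) := by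
  have hj := SF_irr (poF_mem j)
  unfold muD
  rw [if_pos h3, kc_kaF h3, mu_mul hj.1 hj.2.1]
  intro h
  have hmem : poF j ∈ SF D := by
    have := poF_mem j
    rw [h3] at this
    exact this
  have h1 : poF j * poF j ∣ D := by
    conv_rhs => rw [← cof_mul hδ hmem]
    exact mul_dvd_mul_right h _
  refine mq_sq_dvd (h1.trans ?_) hsq hj.2.1
  exact ⟨A * B * (A - B), by ring⟩

lemma muD_ne {δ : ℤ} {j : JF D A B} (h3 : clF j ≠ 3) (c : Fin 3) :
    muD clF poF (kaF δ D A B) c j = mu (poF j) (kzP D A B (clF j)) := by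
  unfold muD kaF
  rw [if_neg h3, if_neg h3]

lemma card_ne {P : Fin 4 → Prop} [DecidablePred P] (L : ℝ) :
    ∑ _j ∈ univ.filter (fun j : JF D A B => P (clF j)), L =
    (∑ c' ∈ univ.filter P, ((SF (Fp D A B c')).card : ℝ)) * L := by
  classical
  rw [sum_const, nsmul_eq_mul]
  congr 1
  rw [card_eq_sum_ones, Nat.cast_sum, ← sum_fiberwise_of_maps_to (t := univ.filter P)
      (g := clF) (fun j hj => mem_filter.2 ⟨mem_univ _, (mem_filter.1 hj).2⟩)]
  refine sum_congr rfl fun c' hc' => ?_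
  rw [card_eq_sum_ones, Nat.cast_sum, ← sumJ c' (fun _ => ((1 : ℕ) : ℝ)), filter_filter]
  refine sum_congr (filter_congr fun j _ => ?_) fun _ _ => rfl
  constructor
  · exact fun h => h.2
  · exact fun h => ⟨by rw [h]; exact (mem_filter.1 hc').2, h⟩

/-- the moments -/
theorem momF (hP : Parts) (hsq : Squarefree (mq (D * A * B * (A - B)))) (k : ℕ)
    (hk : 1 ≤ k) (G : Finset (Fin 3))
    (hG : ∀ c ∈ G, 2 ^ k * ∑ f ∈ SF (Fp D A B c.castSucc), mu f (kzP D A B c.castSucc) ≤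
      ∑ c' ∈ univ.filter (fun c' : Fin 4 => c' ≠ c.castSucc ∧ c' ≠ 3),
        ((SF (Fp D A B c')).card : ℝ) + ∑ f ∈ SF D, (1 - mu f (kdP A B c))) (ε : ℝ) (hε : 0 < ε) :
    ∃ C : ℝ, 0 ≤ C ∧ ∀ (X : ℕ) (u v : ℤ), 1 ≤ X → u.natAbs ≤ X → v.natAbs ≤ X →
      (X : ℝ) ^ ε ≤ (v : ℝ) - u →
      ∑ t ∈ (Icc u v).filter
          (fun t : ℤ => D.eval t * A.eval t * B.eval t * (A.eval t - B.eval t) ≠ 0),
        ((2 : ℝ) ^ ((Module.finrank ℤ
          (EAB (D.eval t * A.eval t) (D.eval t * B.eval t)).toAffine.Point : ℕ) -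
          (ez G (D.eval t) (A.eval t) (B.eval t) : ℝ) : ℝ)) ^ k ≤ C * ((v : ℝ) - u) := by
  classical
  obtain ⟨hf, hd, hnd, a, ha, hF, hδ⟩ := facts hsq
  obtain ⟨C, hC0, hC⟩ := absF hP k hk (clF (D := D) (A := A) (B := B)) a G poF
    (kaF (a 3) D A B) D A B hf hd hnd ha
    (fun t => (hF 0 t).symm) (fun t => (hF 1 t).symm) (fun t => by
      rw [hF 2 t]
      simp [Fp]) (fun t => (hF 3 t).symm) (fun j hj t => by
      unfold kaF
      rw [if_neg hj, kzP_eval]) (fun j hj i t => by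
      have hmem : poF j ∈ SF D := by
        have := poF_mem j
        rw [hj] at this
        exact this
      unfold kaF
      rw [if_pos hj, eval_mul]
      have h1 : (cof (a 3) D (poF j)).eval t * (poF j).eval t = D.eval t := by
        rw [← eval_mul, cof_mul hδ hmem]
      have h2 : (cof (a 3) D (poF j)).eval t * (Fp D A B i.castSucc).eval t * (poF j).eval t =
          D.eval t * (Fp D A B i.castSucc).eval t := by
        rw [← h1]
        ring
      rw [h2]
      unfold F3 Fp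
      fin_cases i <;> simp) (kaF_nd hsq hδ) (fun c hc => by
      refine le_trans (le_of_eq ?_) ((hG c hc).trans (le_of_eq ?_))
      · rw [← sumJ c.castSucc (fun f => mu f (kzP D A B c.castSucc))]
        congr 1
        refine sum_congr rfl fun j hj => ?_
        have h1 := (mem_filter.1 hj).2
        rw [muD_ne (by rw [h1]; exact (Fin.castSucc_lt_last c).ne) c, h1]
      · congr 1
        · have h1 := card_ne (D := D) (A := A) (B := B)
            (P := fun c' => c' ≠ c.castSucc ∧ c' ≠ 3) (1 : ℝ)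
          rw [mul_one, sum_const, nsmul_eq_mul, mul_one] at h1
          exact h1.symm
        · have h1 := sumJ (D := D) (A := A) (B := B) 3 (fun f => 1 - mu f (kdP A B c))
          have h2 : ∑ f ∈ SF (Fp D A B 3), (1 - mu f (kdP A B c)) =
            ∑ f ∈ SF D, (1 - mu f (kdP A B c)) := rfl
          rw [← h2, ← h1]
          refine sum_congr rfl fun j hj => ?_
          rw [muD_three hsq hδ (mem_filter.1 hj).2 c]) ε hε
  refine ⟨C, hC0, fun X u v hX hu hv huv => ?_⟩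
  refine le_trans (le_of_eq ?_) (hC X u v hX hu hv huv)
  refine sum_congr (filter_congr fun t _ => ?_) fun _ _ => rfl
  exact ne_iff ha hF t

end Pool.Agent.L7h19.FD
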