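import Mathlib
import Pool.Agent.L7h19.FD.Inst
import Pool.Agent.L7h19.FT.Rank

/-!
# Project FD: the average of the rank
-/

set_option autoImplicit false
set_option linter.unusedSectionVars false

namespace Pool.Agent.L7h19.FD

open Finset Polynomial Pool.Agent.W262.RK Pool.Agent.W307.RT Pool.Agent.L7h19.RP
open Pool.Agent.L7h19.IS Pool.Agent.L7h19.IT

open Pool.Agent.L7h19.FT (mu Sqr sp S_TKV loglog_lb tkv om_sp mu_one mu_pos)

variable {D A B : ℤ[X]}

/-- the mean of `dz` -/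
noncomputable def Mc (D A B : ℤ[X]) (c : Fin 3) : ℝ :=
  ∑ f ∈ SF (Fp D A B c.castSucc), mu f (kzP D A B c.castSucc) + ∑ f ∈ SF D, mu f (kdP A B c) -
    ∑ c' ∈ univ.filter (fun c' : Fin 4 => c' ≠ c.castSucc), ((SF (Fp D A B c')).card : ℝ)

/-- the normalized counting functions -/
noncomputable def gn (c : Fin 3) (L : ℝ) (t : ℤ) (j : JF D A B) (b : Bool) : ℝ :=
  if b = true then
    (if clF j = c.castSucc then
      ((sp ((kzP D A B c.castSucc).eval t) ((poF j).eval t) : ℕ) : ℝ) -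
        mu (poF j) (kzP D A B c.castSucc) * L
    else if clF j = 3 then
      ((sp ((kdP A B c).eval t) ((poF j).eval t) : ℕ) : ℝ) - mu (poF j) (kdP A B c) * L
    else 0)
  else (if clF j ≠ c.castSucc then
    ((sp ((1 : ℤ[X]).eval t) ((poF j).eval t) : ℕ) : ℝ) - mu (poF j) 1 * L else 0)

lemma Mc_mul (c : Fin 3) (L : ℝ) : Mc D A B c * L =
    ∑ j ∈ univ.filter (fun j : JF D A B => clF j = c.castSucc),
      mu (poF j) (kzP D A B c.castSucc) * L +
    ∑ j ∈ univ.filter (fun j : JF D A B => clF j = 3), mu (poF j) (kdP A B c) * L -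
    ∑ _j ∈ univ.filter (fun j : JF D A B => clF j ≠ c.castSucc), L := by
  unfold Mc
  have h3 : ∑ j ∈ univ.filter (fun j : JF D A B => clF j = 3), mu (poF j) (kdP A B c) * L =
      ∑ f ∈ SF D, mu f (kdP A B c) * L := sumJ 3 (fun f => mu f (kdP A B c) * L)
  rw [sub_mul, add_mul, sum_mul, sum_mul, h3,
    sumJ c.castSucc (fun f => mu f (kzP D A B c.castSucc) * L),
    card_ne (P := fun c' => c' ≠ c.castSucc)]

/-- pointwise bound -/
lemma dzP {a : Fin 4 → ℤ} {z : ℕ} (hDZ : S_DZD) (hz : 2 ≤ z) (ha : ∀ c, a c ≠ 0)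
    (hF : ∀ c t, Fv (clF (D := D) (A := A) (B := B)) a (vf poF t) c = (Fp D A B c).eval t)
    (c : Fin 3) (L : ℝ) (t : ℤ) (hG : Gd z (vf (poF (D := D) (A := A) (B := B)) t)) :
    |((dz (D.eval t) (A.eval t) (B.eval t) c : ℤ) : ℝ) - Mc D A B c * L| ≤
      ∑ j : JF D A B, (|gn c L t j true| + |gn c L t j false|) +
      ((((2 * (Fintype.card (JF D A B) + 5) *
        (z + ∑ c, (a c).natAbs.primeFactors.card) : ℕ) : ℝ) + Fintype.card (JF D A B))) := by
  classical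
  have e0 : (Fp D A B 0).eval t = A.eval t := rfl
  have e1 : (Fp D A B 1).eval t = B.eval t := rfl
  have e2 : (Fp D A B 2).eval t = A.eval t - B.eval t := eval_sub A B t
  have e3 : (Fp D A B 3).eval t = D.eval t := rfl
  have h1 := hDZ (JF D A B) clF a (vf poF t) (D.eval t) (A.eval t) (B.eval t) z c hz hG ha
    (by rw [hF, e0]) (by rw [hF, e1]) (by rw [hF, e2]) (by rw [hF, e3])
  have h2 : |((dz (D.eval t) (A.eval t) (B.eval t) c : ℤ) : ℝ) -
      (∑ j ∈ univ.filter (fun j : JF D A B => clF j = c.castSucc),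
        ((sp (kz (D.eval t) (A.eval t) (B.eval t) c.castSucc) (vf poF t j) : ℕ) : ℝ) +
      ∑ j ∈ univ.filter (fun j : JF D A B => clF j = 3),
        ((sp (kd (A.eval t) (B.eval t) c) (vf poF t j) : ℕ) : ℝ) -
      ∑ j ∈ univ.filter (fun j : JF D A B => clF j ≠ c.castSucc),
        ((om (vf poF t j) : ℕ) : ℝ))| ≤
      (((2 * (Fintype.card (JF D A B) + 5) *
        (z + ∑ c, (a c).natAbs.primeFactors.card) : ℕ) : ℝ)) := by
    exact_mod_cast h1
  have h3 := Mc_mul (D := D) (A := A) (B := B) c L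
  have hc3 : c.castSucc ≠ (3 : Fin 4) := (Fin.castSucc_lt_last c).ne
  have h4 : |∑ j ∈ univ.filter (fun j : JF D A B => clF j = c.castSucc),
        ((sp (kz (D.eval t) (A.eval t) (B.eval t) c.castSucc) (vf poF t j) : ℕ) : ℝ) -
      ∑ j ∈ univ.filter (fun j : JF D A B => clF j = c.castSucc),
        mu (poF j) (kzP D A B c.castSucc) * L +
      (∑ j ∈ univ.filter (fun j : JF D A B => clF j = 3),
        ((sp (kd (A.eval t) (B.eval t) c) (vf poF t j) : ℕ) : ℝ) -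
      ∑ j ∈ univ.filter (fun j : JF D A B => clF j = 3), mu (poF j) (kdP A B c) * L)| ≤
      ∑ j : JF D A B, |gn c L t j true| := by
    rw [← sum_sub_distrib, ← sum_sub_distrib, sum_filter, sum_filter, ← sum_add_distrib]
    refine (abs_sum_le_sum_abs _ _).trans (le_of_eq (sum_congr rfl fun j _ => ?_))
    congr 1
    unfold gn
    rw [if_pos rfl]
    by_cases hj : clF j = c.castSucc
    · have hj3 : ¬ clF j = 3 := by rw [hj]; exact hc3
      rw [if_pos hj, if_neg hj3, if_pos hj, add_zero, kzP_eval]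
      rfl
    · rw [if_neg hj, if_neg hj, zero_add]
      by_cases hj3 : clF j = 3
      · rw [if_pos hj3, if_pos hj3, kdP_eval]
        rfl
      · rw [if_neg hj3, if_neg hj3]
  have h6 : |∑ j ∈ univ.filter (fun j : JF D A B => clF j ≠ c.castSucc),
        ((om (vf poF t j) : ℕ) : ℝ) -
      ∑ j ∈ univ.filter (fun j : JF D A B => clF j ≠ c.castSucc), L| ≤
      ∑ j : JF D A B, |gn c L t j false| + Fintype.card (JF D A B) := by
    rw [← sum_sub_distrib, sum_filter]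
    refine (abs_sum_le_sum_abs _ _).trans ?_
    have e : ∑ j : JF D A B, |gn c L t j false| + (Fintype.card (JF D A B) : ℝ) =
        ∑ j : JF D A B, (|gn c L t j false| + 1) := by
      rw [sum_add_distrib, sum_const, nsmul_eq_mul, mul_one, card_univ]
    rw [e]
    refine sum_le_sum fun j _ => ?_
    unfold gn
    rw [if_neg Bool.false_ne_true]
    by_cases hj : clF j ≠ c.castSucc
    · rw [if_pos hj, if_pos hj, mu_one, eval_one, one_mul]
      have h7 := om_sp (vf poF t j)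
      have h8 : ((om (vf poF t j) : ℕ) : ℝ) - L = (((om (vf poF t j) : ℕ) : ℝ) -
          ((sp 1 (vf poF t j) : ℕ) : ℝ)) + (((sp 1 ((poF j).eval t) : ℕ) : ℝ) - L) := by
        have : ((sp 1 ((poF j).eval t) : ℕ) : ℝ) = ((sp 1 (vf poF t j) : ℕ) : ℝ) := rfl
        rw [this]
        ring
      rw [h8]
      refine (abs_add_le _ _).trans ?_
      linarith
    · rw [if_neg hj, if_neg hj, abs_zero]
      norm_num
  rw [h3, sum_add_distrib]
  have a1 := abs_le.1 h2
  have a2 := abs_le.1 h6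
  have a3 := abs_le.1 h4
  rw [abs_le]
  constructor <;> linarith [a1.1, a1.2, a2.1, a2.2, a3.1, a3.2]

lemma kzP_nd (hsq : Squarefree (mq (D * A * B * (A - B)))) {j : JF D A B} {c : Fin 3}
    (hj : clF j = c.castSucc) : ¬ poF j ∣ kzP D A B c.castSucc := by
  obtain ⟨_, _, _, a, _, _, hδ⟩ := facts hsq
  have h := kaF_nd hsq hδ j 0
  unfold kaF at h
  rw [if_neg (by rw [hj]; exact (Fin.castSucc_lt_last c).ne), hj] at h
  exact h

lemma kdP_nd (hsq : Squarefree (mq (D * A * B * (A - B)))) {j : JF D A B}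
    (hj : clF j = 3) (c : Fin 3) : ¬ poF j ∣ kdP A B c := by
  intro h
  have h0 := SF_irr (poF_mem j)
  have h1 : poF j ∣ D := by
    have := h0.2.2
    rw [hj] at this
    exact this
  have h2 : D * kdP A B c ∣ D * A * B * (A - B) := by
    unfold kdP
    split_ifs
    · exact ⟨-A, by ring⟩
    · exact ⟨B, by ring⟩
    · exact ⟨A - B, by ring⟩
  exact mq_sq_dvd ((mul_dvd_mul h1 h).trans h2) hsq h0.2.1

/-- second moment of `gn` -/
lemma gnV (hTK : S_TKV) (hsq : Squarefree (mq (D * A * B * (A - B)))) (c : Fin 3) (ε : ℝ)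
    (hε : 0 < ε) (j : JF D A B) (b : Bool) :
    ∃ C : ℝ, 0 ≤ C ∧ ∀ (X : ℕ) (u v : ℤ), 3 ≤ X → u.natAbs ≤ X → v.natAbs ≤ X →
      (X : ℝ) ^ ε ≤ (v : ℝ) - u →
      ∑ t ∈ (Icc u v).filter (fun t : ℤ => (poF j).eval t ≠ 0),
        (gn c (Real.log (Real.log X)) t j b) ^ 2 ≤ C * ((v : ℝ) - u) * Real.log (Real.log X) := by
  obtain ⟨hf, hd, -, -⟩ := facts hsq
  cases b
  · by_cases h : clF j ≠ c.castSucc
    · obtain ⟨C, hC0, hC⟩ := tkv hTK (poF j) 1 ε (hf j) (hd j) (not_dvd_one (hf j)) hε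
      refine ⟨C, hC0, fun X u v hX hu hv huv => ?_⟩
      refine le_trans (le_of_eq ?_) (hC X u v hX hu hv huv)
      refine sum_congr rfl fun t _ => ?_
      unfold gn
      rw [if_neg Bool.false_ne_true, if_pos h]
    · refine ⟨0, le_rfl, fun X u v hX hu hv huv => ?_⟩
      rw [zero_mul, zero_mul]
      refine le_of_eq (sum_eq_zero fun t _ => ?_)
      unfold gn
      rw [if_neg Bool.false_ne_true, if_neg h]
      norm_num
  · by_cases h : clF j = c.castSucc
    · obtain ⟨C, hC0, hC⟩ := tkv hTK (poF j) (kzP D A B c.castSucc) ε (hf j) (hd j)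
        (kzP_nd hsq h) hε
      refine ⟨C, hC0, fun X u v hX hu hv huv => ?_⟩
      refine le_trans (le_of_eq ?_) (hC X u v hX hu hv huv)
      refine sum_congr rfl fun t _ => ?_
      unfold gn
      rw [if_pos rfl, if_pos h]
    · by_cases h3 : clF j = 3
      · obtain ⟨C, hC0, hC⟩ := tkv hTK (poF j) (kdP A B c) ε (hf j) (hd j) (kdP_nd hsq h3 c) hε
        refine ⟨C, hC0, fun X u v hX hu hv huv => ?_⟩
        refine le_trans (le_of_eq ?_) (hC X u v hX hu hv huv)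
        refine sum_congr rfl fun t _ => ?_
        unfold gn
        rw [if_pos rfl, if_neg h, if_pos h3]
      · refine ⟨0, le_rfl, fun X u v hX hu hv huv => ?_⟩
        rw [zero_mul, zero_mul]
        refine le_of_eq (sum_eq_zero fun t _ => ?_)
        unfold gn
        rw [if_pos rfl, if_neg h, if_neg h3]
        norm_num

lemma exists_Gd (hsq : Squarefree (mq (D * A * B * (A - B)))) : ∃ z : ℕ, 2 ≤ z ∧ ∀ t : ℤ,
    (∀ j : JF D A B, vf poF t j ≠ 0) → Gd z (vf (poF (D := D) (A := A) (B := B)) t) := by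
  classical
  obtain ⟨hf, hd, hnd, -⟩ := facts hsq
  have hco : ∀ j l : JF D A B, ∃ B' : ℕ, j ≠ l → ∀ p : ℕ, B' < p → ∀ t : ℤ,
      (p : ℤ) ∣ (poF j).eval t → ¬ (p : ℤ) ∣ (poF l).eval t := by
    intro j l
    by_cases h1 : j = l
    · exact ⟨0, fun h' => absurd h1 h'⟩
    · obtain ⟨B', hB⟩ := large_nd (hf j) (hd j) (hnd j l h1)
      exact ⟨B', fun _ => hB⟩
  choose Bc hBc using hco
  refine ⟨∑ j, ∑ l, Bc j l + 2, by omega, fun t ht => ⟨ht, fun p hp hzp j l hjl h1 => ?_⟩⟩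
  have e2 : Bc j l ≤ ∑ l, Bc j l := le_sum_nat (fun l => Bc j l) l
  have e3 : ∑ l, Bc j l ≤ ∑ j, ∑ l, Bc j l := le_sum_nat (fun j => ∑ l, Bc j l) j
  exact hBc j l hjl p (by omega) t h1.1 h1.2

/-- both parts together -/
noncomputable def gs (c : Fin 3) (L : ℝ) (t : ℤ) (j : JF D A B) : ℝ :=
  |gn c L t j true| + |gn c L t j false|

lemma gs_sq (c : Fin 3) (L : ℝ) (t : ℤ) (j : JF D A B) :
    gs c L t j ^ 2 ≤ 2 * (gn c L t j true ^ 2 + gn c L t j false ^ 2) := by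
  unfold gs
  rw [← sq_abs (gn c L t j true), ← sq_abs (gn c L t j false)]
  nlinarith [sq_nonneg (|gn c L t j true| - |gn c L t j false|)]

lemma gsV (hTK : S_TKV) (hsq : Squarefree (mq (D * A * B * (A - B)))) (c : Fin 3) (ε : ℝ)
    (hε : 0 < ε) (j : JF D A B) :
    ∃ C : ℝ, 0 ≤ C ∧ ∀ (X : ℕ) (u v : ℤ), 3 ≤ X → u.natAbs ≤ X → v.natAbs ≤ X →
      (X : ℝ) ^ ε ≤ (v : ℝ) - u →
      ∑ t ∈ (Icc u v).filter (fun t : ℤ => (poF j).eval t ≠ 0),
        (gs c (Real.log (Real.log X)) t j) ^ 2 ≤ C * ((v : ℝ) - u) * Real.log (Real.log X) := by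
  obtain ⟨C1, h10, h1⟩ := gnV hTK hsq c ε hε j true
  obtain ⟨C2, h20, h2⟩ := gnV hTK hsq c ε hε j false
  refine ⟨2 * (C1 + C2), by positivity, fun X u v hX hu hv huv => ?_⟩
  have a1 := h1 X u v hX hu hv huv
  have a2 := h2 X u v hX hu hv huv
  calc _ ≤ ∑ t ∈ (Icc u v).filter (fun t : ℤ => (poF j).eval t ≠ 0),
        2 * (gn c (Real.log (Real.log X)) t j true ^ 2 +
          gn c (Real.log (Real.log X)) t j false ^ 2) := sum_le_sum fun t _ => gs_sq _ _ _ _
    _ ≤ _ := by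
        rw [← mul_sum, sum_add_distrib]
        linarith

/-- the second moment of `dz` -/
theorem dzV (hTK : S_TKV) (hDZ : S_DZD) (hsq : Squarefree (mq (D * A * B * (A - B)))) (c : Fin 3)
    (ε : ℝ) (hε : 0 < ε) :
    ∃ C : ℝ, 0 ≤ C ∧ ∀ (X : ℕ) (u v : ℤ), 3 ≤ X → u.natAbs ≤ X → v.natAbs ≤ X →
      (X : ℝ) ^ ε ≤ (v : ℝ) - u →
      ∑ t ∈ (Icc u v).filter (fun t : ℤ =>
          D.eval t * A.eval t * B.eval t * (A.eval t - B.eval t) ≠ 0),
        (((dz (D.eval t) (A.eval t) (B.eval t) c : ℤ) : ℝ) -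
          Mc D A B c * Real.log (Real.log X)) ^ 2 ≤
        C * ((v : ℝ) - u) * Real.log (Real.log X) := by
  classical
  obtain ⟨-, -, -, a, ha, hF, -⟩ := facts hsq
  choose C1 hC10 hC1 using fun j : JF D A B => gsV hTK hsq c ε hε j
  obtain ⟨z, hz, hGd⟩ := exists_Gd hsq
  obtain ⟨N, hN⟩ : ∃ N : ℝ, N = Fintype.card (JF D A B) := ⟨_, rfl⟩
  obtain ⟨K, hK⟩ : ∃ K : ℝ, K = (((2 * (Fintype.card (JF D A B) + 5) *
    (z + ∑ c, (a c).natAbs.primeFactors.card) : ℕ) : ℝ)) + Fintype.card (JF D A B) := ⟨_, rfl⟩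
  have hN0 : 0 ≤ N := by rw [hN]; exact Nat.cast_nonneg _
  have hK0 : 0 ≤ K := by rw [hK]; exact add_nonneg (Nat.cast_nonneg _) (Nat.cast_nonneg _)
  obtain ⟨S1, hS1⟩ : ∃ S1 : ℝ, S1 = ∑ j, C1 j := ⟨_, rfl⟩
  have hs0 : 0 ≤ S1 := by rw [hS1]; exact sum_nonneg fun j _ => hC10 j
  obtain ⟨E0, hE0⟩ : ∃ E0 : ℝ, E0 = 2 * N * S1 + 4 * K ^ 2 / 0.09 := ⟨_, rfl⟩
  have hD0 : 0 ≤ E0 := by rw [hE0]; positivity
  refine ⟨E0, hD0, fun X u v hX hu hv huv => ?_⟩
  have hXr : (1 : ℝ) ≤ X := by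
    have : (3 : ℝ) ≤ X := by exact_mod_cast hX
    linarith
  have huv1 : (1 : ℝ) ≤ (v : ℝ) - u := (Real.one_le_rpow hXr hε.le).trans huv
  have hw : 0 ≤ (v : ℝ) - u := by linarith
  have hL := loglog_lb X hX
  set LL := Real.log (Real.log X) with hLL
  set T := (Icc u v).filter (fun t : ℤ =>
    D.eval t * A.eval t * B.eval t * (A.eval t - B.eval t) ≠ 0) with hT
  have hTmem : ∀ t ∈ T, ∀ j : JF D A B, vf poF t j ≠ 0 := fun t ht =>
    (ne_iff ha hF t).1 (mem_filter.1 ht).2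
  have hTcard : (T.card : ℝ) ≤ 2 * ((v : ℝ) - u) := by
    have h2 : T.card ≤ (Icc u v).card := card_le_card (filter_subset _ _)
    rw [Int.card_Icc] at h2
    have huvz : (1 : ℤ) ≤ v - u := by exact_mod_cast huv1
    have h3 : ((T.card : ℕ) : ℤ) ≤ v - u + 1 := by omega
    have h4 : (T.card : ℝ) ≤ (v : ℝ) - u + 1 := by exact_mod_cast h3
    linarith
  have h1 : ∀ t ∈ T, (((dz (D.eval t) (A.eval t) (B.eval t) c : ℤ) : ℝ) - Mc D A B c * LL) ^ 2 ≤
      2 * N * ∑ j : JF D A B, gs c LL t j ^ 2 + 2 * K ^ 2 := by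
    intro t ht
    have h2 := dzP hDZ hz ha hF c LL t (hGd t (hTmem t ht))
    rw [← hK] at h2
    have h3 : (∑ j : JF D A B, gs c LL t j) ^ 2 ≤ N * ∑ j : JF D A B, gs c LL t j ^ 2 := by
      have := sq_sum_le_card_mul_sum_sq (s := (univ : Finset (JF D A B)))
        (f := fun j => gs c LL t j)
      rwa [card_univ, ← hN] at this
    calc (((dz (D.eval t) (A.eval t) (B.eval t) c : ℤ) : ℝ) - Mc D A B c * LL) ^ 2 =
          |((dz (D.eval t) (A.eval t) (B.eval t) c : ℤ) : ℝ) - Mc D A B c * LL| ^ 2 :=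
            (sq_abs _).symm
      _ ≤ (∑ j : JF D A B, gs c LL t j + K) ^ 2 := pow_le_pow_left₀ (abs_nonneg _) h2 2
      _ ≤ 2 * (∑ j : JF D A B, gs c LL t j) ^ 2 + 2 * K ^ 2 := by
          nlinarith [sq_nonneg (∑ j : JF D A B, gs c LL t j - K)]
      _ ≤ _ := by linarith
  have h5 : ∀ j : JF D A B, ∑ t ∈ T, gs c LL t j ^ 2 ≤ C1 j * ((v : ℝ) - u) * LL := by
    intro j
    have hsub : T ⊆ (Icc u v).filter (fun t : ℤ => (poF j).eval t ≠ 0) := fun t ht =>
      mem_filter.2 ⟨(mem_filter.1 ht).1, hTmem t ht j⟩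
    exact (sum_le_sum_of_subset_of_nonneg hsub fun _ _ _ => sq_nonneg _).trans
      (hC1 j X u v hX hu hv huv)
  have h6 := sum_le_sum h1
  rw [sum_add_distrib, ← mul_sum, sum_comm, sum_const, nsmul_eq_mul] at h6
  have h7 : ∑ j : JF D A B, ∑ t ∈ T, gs c LL t j ^ 2 ≤ S1 * ((v : ℝ) - u) * LL := by
    rw [hS1, sum_mul, sum_mul]
    exact sum_le_sum fun j _ => h5 j
  have h8 : (T.card : ℝ) * (2 * K ^ 2) ≤ 4 * K ^ 2 / 0.09 * ((v : ℝ) - u) * LL := by
    calc (T.card : ℝ) * (2 * K ^ 2) ≤ (2 * ((v : ℝ) - u)) * (2 * K ^ 2) :=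
          mul_le_mul_of_nonneg_right hTcard (by positivity)
      _ = 4 * K ^ 2 / 0.09 * ((v : ℝ) - u) * 0.09 := by ring
      _ ≤ _ := mul_le_mul_of_nonneg_left hL (by positivity)
  have h9 : 2 * N * ∑ j : JF D A B, ∑ t ∈ T, gs c LL t j ^ 2 ≤
      2 * N * (S1 * ((v : ℝ) - u) * LL) :=
    mul_le_mul_of_nonneg_left h7 (by positivity)
  refine h6.trans ?_
  calc _ ≤ 2 * N * (S1 * ((v : ℝ) - u) * LL) +
        4 * K ^ 2 / 0.09 * ((v : ℝ) - u) * LL := add_le_add h9 h8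
    _ = E0 * ((v : ℝ) - u) * LL := by rw [hE0]; ring

/-- **the average rank** -/
theorem rankF (hP : Parts) (hTK : S_TKV) (hDZ : S_DZD)
    (hsq : Squarefree (mq (D * A * B * (A - B)))) (μ : ℝ) (hμ0 : 0 ≤ μ) (hμ : ∀ c, Mc D A B c ≤ μ)
    (ε : ℝ) (hε : 0 < ε) :
    ∃ C : ℝ, 0 ≤ C ∧ ∀ (X : ℕ) (u v : ℤ), 3 ≤ X → u.natAbs ≤ X → v.natAbs ≤ X →
      (X : ℝ) ^ ε ≤ (v : ℝ) - u →
      (∑ t ∈ (Icc u v).filter (fun t : ℤ => D.eval t * A.eval t * B.eval t * (A.eval t - B.eval t) ≠ 0),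
        ((Module.finrank ℤ (EAB (D.eval t * A.eval t) (D.eval t * B.eval t)).toAffine.Point : ℕ) : ℝ) ≤
        (μ * Real.log (Real.log X) + C * √(Real.log (Real.log X))) * ((v : ℝ) - u)) ∧
      ((∀ c, Mc D A B c < 0) →
      ∑ t ∈ (Icc u v).filter (fun t : ℤ => D.eval t * A.eval t * B.eval t * (A.eval t - B.eval t) ≠ 0),
        ((Module.finrank ℤ (EAB (D.eval t * A.eval t) (D.eval t * B.eval t)).toAffine.Point : ℕ) : ℝ) ≤
        C * ((v : ℝ) - u)) := by
  classical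
  obtain ⟨C1, hC10, hC1⟩ := momF hP hsq 1 le_rfl ∅ (fun c hc => absurd hc (notMem_empty c)) ε hε
  choose C2 hC20 hC2 using fun c => dzV hTK hDZ hsq c ε hε
  set E1 : ℝ := ∑ c, C2 c with hE1
  have hE10 : 0 ≤ E1 := sum_nonneg fun c _ => hC20 c
  set E4 : ℝ := ∑ c, C2 c / (4 * |Mc D A B c|) with hE4
  have hE40 : 0 ≤ E4 := sum_nonneg fun c _ => div_nonneg (hC20 c) (by positivity)
  refine ⟨C1 / 0.3 + E1 + 6 + μ * (1 / ε + 1) + (C1 + E4), by positivity,
    fun X u v hX hu hv huv => ?_⟩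
  have hX1 : 1 ≤ X := by omega
  have hXr3 : (3 : ℝ) ≤ X := by exact_mod_cast hX
  have hXr : (1 : ℝ) ≤ X := by linarith
  have huv1 : (1 : ℝ) ≤ (v : ℝ) - u := (Real.one_le_rpow hXr hε.le).trans huv
  have hw : 0 ≤ (v : ℝ) - u := by linarith
  have hL := loglog_lb X hX
  set LL := Real.log (Real.log X) with hLL
  have hLLp : 0 < LL := by linarith
  set Q := √LL with hQ
  have hQ0 : 0.3 ≤ Q := by
    rw [hQ]
    apply Real.le_sqrt_of_sq_le
    norm_num
    linarith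
  have hQp : 0 < Q := by linarith
  have hQQ : Q * Q = LL := Real.mul_self_sqrt hLLp.le
  set T := (Icc u v).filter (fun t : ℤ => D.eval t * A.eval t * B.eval t * (A.eval t - B.eval t) ≠ 0) with hT
  have hTcard1 : (T.card : ℝ) ≤ (v : ℝ) - u + 1 := by
    have h2 : T.card ≤ (Icc u v).card := card_le_card (filter_subset _ _)
    rw [Int.card_Icc] at h2
    have huvz : (1 : ℤ) ≤ v - u := by exact_mod_cast huv1
    have h3 : ((T.card : ℕ) : ℤ) ≤ v - u + 1 := by omega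
    exact_mod_cast h3
  have hTcard : (T.card : ℝ) ≤ 2 * ((v : ℝ) - u) := by linarith
  set r : ℤ → ℝ := fun t =>
    ((Module.finrank ℤ (EAB (D.eval t * A.eval t) (D.eval t * B.eval t)).toAffine.Point : ℕ) : ℝ) with hr
  set e : ℤ → ℝ := fun t => (ez ∅ (D.eval t) (A.eval t) (B.eval t) : ℝ) with he
  set d : Fin 3 → ℤ → ℝ := fun c t => ((dz (D.eval t) (A.eval t) (B.eval t) c : ℤ) : ℝ) with hd
  have hmom : ∑ t ∈ T, (2 : ℝ) ^ (r t - e t) ≤ C1 * ((v : ℝ) - u) := by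
    have h1 := hC1 X u v hX1 hu hv huv
    refine le_trans (le_of_eq ?_) h1
    exact sum_congr rfl fun t _ => by rw [pow_one]
  have hre : ∀ t, r t ≤ (2 : ℝ) ^ (r t - e t) + e t := by
    intro t
    have h2 := Pool.Agent.L7h19.IS.le_two_rpow (r t - e t)
    linarith
  have hec : ∀ t, ∃ c, e t = max (d c t) 0 := by
    intro t
    have h1 : (univ.filter (fun c : Fin 3 => c ∉ (∅ : Finset (Fin 3)))).Nonempty :=
      ⟨0, mem_filter.2 ⟨mem_univ _, notMem_empty _⟩⟩
    obtain ⟨c, _, hc⟩ := exists_mem_eq_sup _ h1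
      (fun c => (dz (D.eval t) (A.eval t) (B.eval t) c).toNat)
    refine ⟨c, ?_⟩
    rw [he, hd]
    dsimp only
    unfold ez
    rw [hc]
    have h2 : (((dz (D.eval t) (A.eval t) (B.eval t) c).toNat : ℕ) : ℤ) =
      max (dz (D.eval t) (A.eval t) (B.eval t) c) 0 := Int.toNat_eq_max _
    have h3 : ((((dz (D.eval t) (A.eval t) (B.eval t) c).toNat : ℕ) : ℤ) : ℝ) =
      ((max (dz (D.eval t) (A.eval t) (B.eval t) c) 0 : ℤ) : ℝ) := by rw [h2]
    push_cast at h3
    exact h3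
  have hsumr : ∑ t ∈ T, r t ≤ C1 * ((v : ℝ) - u) + ∑ t ∈ T, e t := by
    calc ∑ t ∈ T, r t ≤ ∑ t ∈ T, ((2 : ℝ) ^ (r t - e t) + e t) := sum_le_sum fun t _ => hre t
      _ ≤ _ := by
          rw [sum_add_distrib]
          linarith
  constructor
  · -- the general bound
    have h1 : ∀ t ∈ T, e t ≤ μ * LL + ∑ c, |d c t - Mc D A B c * LL| := by
      intro t _
      obtain ⟨c, hc⟩ := hec t
      have h2 : |d c t - Mc D A B c * LL| ≤ ∑ c, |d c t - Mc D A B c * LL| :=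
        single_le_sum (f := fun c => |d c t - Mc D A B c * LL|) (fun _ _ => abs_nonneg _)
          (mem_univ c)
      have h3 := le_abs_self (d c t - Mc D A B c * LL)
      have h4 : Mc D A B c * LL ≤ μ * LL := mul_le_mul_of_nonneg_right (hμ c) hLLp.le
      have h5 : 0 ≤ μ * LL := by positivity
      have h6 : 0 ≤ |d c t - Mc D A B c * LL| := abs_nonneg _
      rw [hc]
      rcases max_choice (d c t) 0 with h7 | h7 <;> rw [h7] <;> linarith
    have h2 : ∀ c, ∑ t ∈ T, |d c t - Mc D A B c * LL| ≤ (C2 c + 2) * Q * ((v : ℝ) - u) := by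
      intro c
      have h3 : ∀ t ∈ T, |d c t - Mc D A B c * LL| ≤
          (d c t - Mc D A B c * LL) ^ 2 / Q + Q := by
        intro t _
        rw [← sq_abs (d c t - Mc D A B c * LL)]
        set x := |d c t - Mc D A B c * LL|
        rw [div_add' _ _ _ hQp.ne', le_div_iff₀ hQp]
        nlinarith [sq_nonneg (x - Q), abs_nonneg (d c t - Mc D A B c * LL)]
      have h4 := sum_le_sum h3
      rw [sum_add_distrib, ← sum_div, sum_const, nsmul_eq_mul] at h4
      have h5 : (∑ t ∈ T, (d c t - Mc D A B c * LL) ^ 2) / Q ≤ C2 c * ((v : ℝ) - u) * Q := by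
        rw [div_le_iff₀ hQp]
        have h6 := hC2 c X u v hX hu hv huv
        rw [← hLL] at h6
        calc _ ≤ _ := h6
          _ = _ := by rw [← hQQ]; ring
      have h6 : (T.card : ℝ) * Q ≤ 2 * ((v : ℝ) - u) * Q := mul_le_mul_of_nonneg_right hTcard hQp.le
      linarith
    have h3 : ∑ t ∈ T, e t ≤ (T.card : ℝ) * (μ * LL) + (E1 + 6) * Q * ((v : ℝ) - u) := by
      calc ∑ t ∈ T, e t ≤ ∑ t ∈ T, (μ * LL + ∑ c, |d c t - Mc D A B c * LL|) := sum_le_sum h1
        _ = (T.card : ℝ) * (μ * LL) + ∑ c, ∑ t ∈ T, |d c t - Mc D A B c * LL| := by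
            rw [sum_add_distrib, sum_const, nsmul_eq_mul, sum_comm]
        _ ≤ (T.card : ℝ) * (μ * LL) + ∑ c, (C2 c + 2) * Q * ((v : ℝ) - u) := by
            have := sum_le_sum fun c (_ : c ∈ (univ : Finset (Fin 3))) => h2 c
            linarith
        _ = _ := by
            rw [← sum_mul, ← sum_mul, sum_add_distrib, sum_const, card_univ, Fintype.card_fin,
              hE1]
            norm_num
    have hQX : Q ≤ (1 / ε + 1) * ((v : ℝ) - u) := by
      have e1 : LL ≤ Real.log X := by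
        rw [hLL]
        have := Real.log_le_sub_one_of_pos (show 0 < Real.log X by
          apply Real.log_pos; linarith)
        linarith
      have e2 : Real.log X ≤ (X : ℝ) ^ ε / ε := Real.log_le_rpow_div (by linarith) hε
      have e3 : Q ≤ 1 + LL := by nlinarith
      have e4 : (X : ℝ) ^ ε / ε ≤ (1 / ε) * ((v : ℝ) - u) := by
        rw [div_eq_mul_one_div, mul_comm]
        exact mul_le_mul_of_nonneg_left huv (by positivity)
      rw [add_mul, one_mul]
      linarith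
    have f1 : (T.card : ℝ) * (μ * LL) ≤ μ * LL * ((v : ℝ) - u) +
        μ * (1 / ε + 1) * Q * ((v : ℝ) - u) := by
      have e1 : (T.card : ℝ) * (μ * LL) ≤ ((v : ℝ) - u + 1) * (μ * LL) :=
        mul_le_mul_of_nonneg_right hTcard1 (by positivity)
      have e2 : μ * LL ≤ μ * (1 / ε + 1) * Q * ((v : ℝ) - u) := by
        calc μ * LL = μ * Q * Q := by rw [mul_assoc, hQQ]
          _ ≤ μ * Q * ((1 / ε + 1) * ((v : ℝ) - u)) :=
              mul_le_mul_of_nonneg_left hQX (by positivity)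
          _ = _ := by ring
      calc _ ≤ _ := e1
        _ = μ * LL * ((v : ℝ) - u) + μ * LL := by ring
        _ ≤ _ := by linarith
    have f2 : C1 * ((v : ℝ) - u) ≤ C1 / 0.3 * Q * ((v : ℝ) - u) := by
      refine mul_le_mul_of_nonneg_right ?_ hw
      rw [div_mul_eq_mul_div, le_div_iff₀ (by norm_num)]
      exact mul_le_mul_of_nonneg_left hQ0 hC10
    have f3 : 0 ≤ (C1 + E4) * Q * ((v : ℝ) - u) := by positivity
    calc _ ≤ _ := hsumr
      _ ≤ C1 / 0.3 * Q * ((v : ℝ) - u) + (μ * LL * ((v : ℝ) - u) +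
            μ * (1 / ε + 1) * Q * ((v : ℝ) - u) + (E1 + 6) * Q * ((v : ℝ) - u)) := by linarith
      _ ≤ _ := by
          have f4 : (μ * LL + (C1 / 0.3 + E1 + 6 + μ * (1 / ε + 1) + (C1 + E4)) * Q) *
              ((v : ℝ) - u) = μ * LL * ((v : ℝ) - u) + C1 / 0.3 * Q * ((v : ℝ) - u) +
              (E1 + 6) * Q * ((v : ℝ) - u) + μ * (1 / ε + 1) * Q * ((v : ℝ) - u) +
              (C1 + E4) * Q * ((v : ℝ) - u) := by ring
          rw [f4]
          linarith
  · -- bounded average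
    intro hneg
    have h1 : ∀ t ∈ T, e t ≤ ∑ c, (d c t - Mc D A B c * LL) ^ 2 / (4 * |Mc D A B c| * LL) := by
      intro t _
      obtain ⟨c, hc⟩ := hec t
      have hM : 0 < |Mc D A B c| := abs_pos.2 (hneg c).ne
      have h2 : (d c t - Mc D A B c * LL) ^ 2 / (4 * |Mc D A B c| * LL) ≤
          ∑ c, (d c t - Mc D A B c * LL) ^ 2 / (4 * |Mc D A B c| * LL) :=
        single_le_sum (f := fun c => (d c t - Mc D A B c * LL) ^ 2 / (4 * |Mc D A B c| * LL))
          (fun _ _ => by positivity) (mem_univ c)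
      refine le_trans ?_ h2
      rw [hc]
      refine max_le ?_ (by positivity)
      rw [le_div_iff₀ (by positivity), abs_of_neg (hneg c)]
      nlinarith [sq_nonneg (d c t + Mc D A B c * LL)]
    have h2 : ∑ t ∈ T, e t ≤ E4 * ((v : ℝ) - u) := by
      calc ∑ t ∈ T, e t ≤ ∑ t ∈ T, ∑ c, (d c t - Mc D A B c * LL) ^ 2 / (4 * |Mc D A B c| * LL) :=
            sum_le_sum h1
        _ = ∑ c, (∑ t ∈ T, (d c t - Mc D A B c * LL) ^ 2) / (4 * |Mc D A B c| * LL) := by
            rw [sum_comm]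
            exact sum_congr rfl fun c _ => (sum_div _ _ _).symm
        _ ≤ ∑ c, C2 c / (4 * |Mc D A B c|) * ((v : ℝ) - u) := by
            refine sum_le_sum fun c _ => ?_
            have hM : 0 < |Mc D A B c| := abs_pos.2 (hneg c).ne
            have h6 := hC2 c X u v hX hu hv huv
            rw [← hLL] at h6
            rw [div_le_iff₀ (by positivity)]
            refine h6.trans (le_of_eq ?_)
            field_simp
        _ = _ := by rw [hE4, sum_mul]
    calc _ ≤ _ := hsumr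
      _ ≤ (C1 + E4) * ((v : ℝ) - u) := by linarith
      _ ≤ _ := by
          refine mul_le_mul_of_nonneg_right ?_ hw
          have : 0 ≤ C1 / 0.3 + E1 + 6 + μ * (1 / ε + 1) := by positivity
          linarith

end Pool.Agent.L7h19.FD
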